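import Pool.Agent.Lib.MP_7216ee_lc.Ent

/-!
The copy construction.
-/

namespace Pool.Agent.MP7216ee

open scoped ENNReal

variable {I I' : Type*} {α β γ δ κ : Type*}

theorem ent_eq_tsum (p : I → ℝ≥0∞) (X : I → α) :
    ent p X = ∑' a, mass p X a * sur (mass p X a) := by
  unfold ent
  exact tsum_comp p X (fun a => sur (mass p X a))

theorem mass_comp (p : I → ℝ≥0∞) (X : I → α) (g : α → β) (b : β) :
    mass p (fun i => g (X i)) b = ∑' a, (g ⁻¹' {b}).indicator (mass p X) a := by
  classical
  have h := tsum_comp p X (fun a => if g a = b then 1 else 0)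
  have h1 : ∀ i, p i * (if g (X i) = b then 1 else 0) =
      ((fun i => g (X i)) ⁻¹' {b}).indicator p i := by
    intro i
    by_cases hi : g (X i) = b
    · rw [Set.indicator_of_mem (by simpa using hi)]; simp [hi]
    · rw [Set.indicator_of_notMem (by simpa using hi)]; simp [hi]
  have h2 : ∀ a, mass p X a * (if g a = b then 1 else 0) =
      (g ⁻¹' {b}).indicator (mass p X) a := by
    intro a
    by_cases hi : g a = b
    · rw [Set.indicator_of_mem (by simpa using hi)]; simp [hi]
    · rw [Set.indicator_of_notMem (by simpa using hi)]; simp [hi]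
  simp_rw [h1, h2] at h
  exact h

theorem ent_comp_congr (p : I → ℝ≥0∞) (p' : I' → ℝ≥0∞) (X : I → α) (X' : I' → α)
    (h : ∀ a, mass p' X' a = mass p X a) (g : α → β) :
    ent p' (fun i => g (X' i)) = ent p (fun i => g (X i)) := by
  rw [ent_eq_tsum, ent_eq_tsum]
  have : ∀ b, mass p' (fun i => g (X' i)) b = mass p (fun i => g (X i)) b := by
    intro b
    rw [mass_comp, mass_comp]
    congr 1
    ext a
    simp only [Set.indicator, h]
  simp_rw [this]

/-- weights of the copy construction: `r` is a conditionally independent copy of `C` over `W` -/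
noncomputable def cw (p : I → ℝ≥0∞) (C : I → γ) (W : I → δ) : I × γ → ℝ≥0∞ :=
  fun x => p x.1 * (mass p (fun i => (C i, W i)) (x.2, W x.1) / mass p W (W x.1))

variable {p : I → ℝ≥0∞} (hp : ∑' i, p i = 1) (C : I → γ) (W : I → δ)

include hp

theorem mass_le_one (X : I → α) (a : α) : mass p X a ≤ 1 :=
  (mass_le_total p X a).trans hp.le

theorem mass_ne_top (X : I → α) (a : α) : mass p X a ≠ ⊤ :=
  ne_top_of_le_ne_top ENNReal.one_ne_top (mass_le_one hp X a)

theorem tsum_cw_snd (i : I) : ∑' r, cw p C W (i, r) = p i := by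
  unfold cw
  simp only
  simp_rw [ENNReal.div_eq_inv_mul]
  rw [ENNReal.tsum_mul_left, ENNReal.tsum_mul_left, sum_mass_fst p C W (W i)]
  by_cases hi : p i = 0
  · simp [hi]
  · rw [ENNReal.inv_mul_cancel (mass_ne_zero W hi) (mass_ne_top hp W _), mul_one]

theorem tsum_cw : ∑' x, cw p C W x = 1 := by
  rw [ENNReal.tsum_prod']
  simp_rw [tsum_cw_snd hp C W]
  exact hp

theorem mass_cw_fst (X : I → α) (a : α) : mass (cw p C W) (fun x => X x.1) a = mass p X a := by
  classical
  unfold mass
  rw [ENNReal.tsum_prod']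
  congr 1
  ext i
  by_cases hi : X i = a
  · rw [Set.indicator_of_mem (by simpa using hi)]
    rw [← tsum_cw_snd hp C W i]
    congr 1
    ext r
    rw [Set.indicator_of_mem (by simpa using hi)]
  · rw [Set.indicator_of_notMem (by simpa using hi)]
    rw [ENNReal.tsum_eq_zero]
    intro r
    rw [Set.indicator_of_notMem (by simpa using hi)]

omit hp in
/-- general mass formula for the copy together with a variable `V` refining `W` -/
theorem mass_cw_pair (V : I → κ) (h : κ → δ) (hV : ∀ i, W i = h (V i)) (r : γ) (v : κ) :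
    mass (cw p C W) (fun x => (x.2, V x.1)) (r, v) =
      mass p V v * (mass p (fun i => (C i, W i)) (r, h v) / mass p W (h v)) := by
  classical
  unfold mass
  rw [ENNReal.tsum_prod', ← ENNReal.tsum_mul_right]
  congr 1
  ext i
  by_cases hi : V i = v
  · rw [Set.indicator_of_mem (by simpa using hi)]
    rw [tsum_eq_single r]
    · rw [Set.indicator_of_mem (by simpa using hi)]
      unfold cw
      simp only
      rw [hV i, hi]
      rfl
    · intro b hb
      apply Set.indicator_of_notMem
      simp [hb]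
  · rw [Set.indicator_of_notMem (by simpa using hi), zero_mul, ENNReal.tsum_eq_zero]
    intro b
    apply Set.indicator_of_notMem
    simp [hi]

omit hp in
theorem mass_pair_le (X : I → α) (r : α) (w : δ) :
    mass p (fun i => (X i, W i)) (r, w) ≤ mass p W w := by
  rw [← sum_mass_fst p X W w]
  exact ENNReal.le_tsum r

theorem mass_cw_self (r : γ) (w : δ) :
    mass (cw p C W) (fun x => (x.2, W x.1)) (r, w) = mass p (fun i => (C i, W i)) (r, w) := by
  rw [mass_cw_pair C W W id (fun i => rfl) r w]
  simp only [id]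
  by_cases h0 : mass p W w = 0
  · have : mass p (fun i => (C i, W i)) (r, w) = 0 :=
      le_antisymm ((mass_pair_le W C r w).trans h0.le) zero_le
    simp [h0, this]
  · rw [ENNReal.mul_div_cancel h0 (mass_ne_top hp W w)]

theorem ent_cw_fst (X : I → α) : ent (cw p C W) (fun x => X x.1) = ent p X := by
  rw [ent_eq_tsum, ent_eq_tsum]
  simp_rw [mass_cw_fst hp C W]

theorem ent_cw_comp (g : γ × δ → β) :
    ent (cw p C W) (fun x => g (x.2, W x.1)) = ent p (fun i => g (C i, W i)) :=
  ent_comp_congr p (cw p C W) (fun i => (C i, W i)) (fun x => (x.2, W x.1))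
    (fun a => mass_cw_self hp C W a.1 a.2) g

omit hp in
theorem sur_mul_div {x y z : ℝ≥0∞} (hx : x ≠ 0) (hy : y ≠ 0) (hz : z ≠ 0)
    (x1 : x ≤ 1) (yz : y ≤ z) (z1 : z ≤ 1) :
    sur (x * (y / z)) + sur z = sur x + sur y := by
  have y1 : y ≤ 1 := yz.trans z1
  have f1 : x ≠ ⊤ := ne_top_of_le_ne_top ENNReal.one_ne_top x1
  have f2 : y ≠ ⊤ := ne_top_of_le_ne_top ENNReal.one_ne_top y1
  have f3 : z ≠ ⊤ := ne_top_of_le_ne_top ENNReal.one_ne_top z1
  lift x to NNReal using f1
  lift y to NNReal using f2
  lift z to NNReal using f3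
  have g1 : (0:ℝ) < x := by
    have : x ≠ 0 := by simpa using hx
    positivity
  have g2 : (0:ℝ) < y := by
    have : y ≠ 0 := by simpa using hy
    positivity
  have g3 : (0:ℝ) < z := by
    have : z ≠ 0 := by simpa using hz
    positivity
  have u1 : (x:ℝ) ≤ 1 := by exact_mod_cast x1
  have u2 : (y:ℝ) ≤ 1 := by exact_mod_cast y1
  have u3 : (z:ℝ) ≤ 1 := by exact_mod_cast z1
  have u4 : (y:ℝ) ≤ z := by exact_mod_cast yz
  have l1 : 0 ≤ - Real.log x := by have := Real.log_nonpos g1.le u1; linarith
  have l2 : 0 ≤ - Real.log y := by have := Real.log_nonpos g2.le u2; linarith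
  have l3 : 0 ≤ - Real.log z := by have := Real.log_nonpos g3.le u3; linarith
  have l4 : Real.log y ≤ Real.log z := Real.log_le_log g2 u4
  unfold sur
  have e : ((x : ℝ≥0∞) * (y / z)).toReal = (x:ℝ) * (y / z) := by
    simp
  rw [e]
  simp only [ENNReal.coe_toReal]
  have e2 : Real.log ((x:ℝ) * (y / z)) = Real.log x + (Real.log y - Real.log z) := by
    rw [Real.log_mul g1.ne' (by positivity), Real.log_div g2.ne' g3.ne']
  rw [e2, ← ENNReal.ofReal_add (by linarith) l3, ← ENNReal.ofReal_add l1 l2]
  congr 1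
  ring

theorem ent_cw_markov (V : I → κ) (h : κ → δ) (hV : ∀ i, W i = h (V i)) :
    ent (cw p C W) (fun x => (x.2, V x.1)) + ent p W =
      ent p V + ent p (fun i => (C i, W i)) := by
  rw [← ent_cw_fst hp C W W, ← ent_cw_fst hp C W V]
  have h2 : ent (cw p C W) (fun x => (x.2, W x.1)) = ent p (fun i => (C i, W i)) :=
    ent_cw_comp hp C W id
  rw [← h2]
  unfold ent
  rw [← ENNReal.tsum_add, ← ENNReal.tsum_add]
  congr 1
  ext x
  by_cases hx : cw p C W x = 0
  · simp [hx]
  · have hp0 : p x.1 ≠ 0 := by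
      intro h0; apply hx; unfold cw; simp [h0]
    have hm0 : mass p (fun i => (C i, W i)) (x.2, W x.1) ≠ 0 := by
      intro h0; apply hx; unfold cw; simp [h0]
    rw [← mul_add, ← mul_add]
    congr 1
    rw [mass_cw_pair C W V h hV, mass_cw_fst hp C W W, mass_cw_fst hp C W V,
      mass_cw_self hp C W, ← hV]
    apply sur_mul_div
    · exact mass_ne_zero V hp0
    · exact hm0
    · exact mass_ne_zero W hp0
    · exact mass_le_one hp _ _
    · exact mass_pair_le W C _ _
    · exact mass_le_one hp _ _

end Pool.Agent.MP7216ee
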