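import Mathlib

/-!
Conic decomposition for the scenario of singles and pairs on four indices.
-/

namespace Pool.Agent.MP7216ee

theorem mn2 (x0 x1 : ℝ) :
    (x0 ≤ x1) ∨
    (x1 ≤ x0) := by
  obtain ⟨i, hi⟩ := Finite.exists_min (![x0, x1] : Fin 2 → ℝ)
  fin_cases i
  · exact Or.inl (hi 1)
  · exact Or.inr (hi 0)

theorem mn3 (x0 x1 x2 : ℝ) :
    (x0 ≤ x1 ∧ x0 ≤ x2) ∨
    (x1 ≤ x0 ∧ x1 ≤ x2) ∨
    (x2 ≤ x0 ∧ x2 ≤ x1) := by
  obtain ⟨i, hi⟩ := Finite.exists_min (![x0, x1, x2] : Fin 3 → ℝ)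
  fin_cases i
  · exact Or.inl ⟨hi 1, hi 2⟩
  · exact Or.inr (Or.inl ⟨hi 0, hi 2⟩)
  · exact Or.inr (Or.inr (⟨hi 0, hi 1⟩))

theorem mn4 (x0 x1 x2 x3 : ℝ) :
    (x0 ≤ x1 ∧ x0 ≤ x2 ∧ x0 ≤ x3) ∨
    (x1 ≤ x0 ∧ x1 ≤ x2 ∧ x1 ≤ x3) ∨
    (x2 ≤ x0 ∧ x2 ≤ x1 ∧ x2 ≤ x3) ∨
    (x3 ≤ x0 ∧ x3 ≤ x1 ∧ x3 ≤ x2) := by
  obtain ⟨i, hi⟩ := Finite.exists_min (![x0, x1, x2, x3] : Fin 4 → ℝ)
  fin_cases i
  · exact Or.inl ⟨hi 1, hi 2, hi 3⟩
  · exact Or.inr (Or.inl ⟨hi 0, hi 2, hi 3⟩)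
  · exact Or.inr (Or.inr (Or.inl ⟨hi 0, hi 1, hi 3⟩))
  · exact Or.inr (Or.inr (Or.inr (⟨hi 0, hi 1, hi 2⟩)))

theorem mn5 (x0 x1 x2 x3 x4 : ℝ) :
    (x0 ≤ x1 ∧ x0 ≤ x2 ∧ x0 ≤ x3 ∧ x0 ≤ x4) ∨
    (x1 ≤ x0 ∧ x1 ≤ x2 ∧ x1 ≤ x3 ∧ x1 ≤ x4) ∨
    (x2 ≤ x0 ∧ x2 ≤ x1 ∧ x2 ≤ x3 ∧ x2 ≤ x4) ∨
    (x3 ≤ x0 ∧ x3 ≤ x1 ∧ x3 ≤ x2 ∧ x3 ≤ x4) ∨
    (x4 ≤ x0 ∧ x4 ≤ x1 ∧ x4 ≤ x2 ∧ x4 ≤ x3) := by
  obtain ⟨i, hi⟩ := Finite.exists_min (![x0, x1, x2, x3, x4] : Fin 5 → ℝ)
  fin_cases i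
  · exact Or.inl ⟨hi 1, hi 2, hi 3, hi 4⟩
  · exact Or.inr (Or.inl ⟨hi 0, hi 2, hi 3, hi 4⟩)
  · exact Or.inr (Or.inr (Or.inl ⟨hi 0, hi 1, hi 3, hi 4⟩))
  · exact Or.inr (Or.inr (Or.inr (Or.inl ⟨hi 0, hi 1, hi 2, hi 4⟩)))
  · exact Or.inr (Or.inr (Or.inr (Or.inr (⟨hi 0, hi 1, hi 2, hi 3⟩))))

theorem mn9 (x0 x1 x2 x3 x4 x5 x6 x7 x8 : ℝ) :
    (x0 ≤ x1 ∧ x0 ≤ x2 ∧ x0 ≤ x3 ∧ x0 ≤ x4 ∧ x0 ≤ x5 ∧ x0 ≤ x6 ∧ x0 ≤ x7 ∧ x0 ≤ x8) ∨
    (x1 ≤ x0 ∧ x1 ≤ x2 ∧ x1 ≤ x3 ∧ x1 ≤ x4 ∧ x1 ≤ x5 ∧ x1 ≤ x6 ∧ x1 ≤ x7 ∧ x1 ≤ x8) ∨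
    (x2 ≤ x0 ∧ x2 ≤ x1 ∧ x2 ≤ x3 ∧ x2 ≤ x4 ∧ x2 ≤ x5 ∧ x2 ≤ x6 ∧ x2 ≤ x7 ∧ x2 ≤ x8) ∨
    (x3 ≤ x0 ∧ x3 ≤ x1 ∧ x3 ≤ x2 ∧ x3 ≤ x4 ∧ x3 ≤ x5 ∧ x3 ≤ x6 ∧ x3 ≤ x7 ∧ x3 ≤ x8) ∨
    (x4 ≤ x0 ∧ x4 ≤ x1 ∧ x4 ≤ x2 ∧ x4 ≤ x3 ∧ x4 ≤ x5 ∧ x4 ≤ x6 ∧ x4 ≤ x7 ∧ x4 ≤ x8) ∨
    (x5 ≤ x0 ∧ x5 ≤ x1 ∧ x5 ≤ x2 ∧ x5 ≤ x3 ∧ x5 ≤ x4 ∧ x5 ≤ x6 ∧ x5 ≤ x7 ∧ x5 ≤ x8) ∨
    (x6 ≤ x0 ∧ x6 ≤ x1 ∧ x6 ≤ x2 ∧ x6 ≤ x3 ∧ x6 ≤ x4 ∧ x6 ≤ x5 ∧ x6 ≤ x7 ∧ x6 ≤ x8) ∨
    (x7 ≤ x0 ∧ x7 ≤ x1 ∧ x7 ≤ x2 ∧ x7 ≤ x3 ∧ x7 ≤ x4 ∧ x7 ≤ x5 ∧ x7 ≤ x6 ∧ x7 ≤ x8) ∨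
    (x8 ≤ x0 ∧ x8 ≤ x1 ∧ x8 ≤ x2 ∧ x8 ≤ x3 ∧ x8 ≤ x4 ∧ x8 ≤ x5 ∧ x8 ≤ x6 ∧ x8 ≤ x7) := by
  obtain ⟨i, hi⟩ := Finite.exists_min (![x0, x1, x2, x3, x4, x5, x6, x7, x8] : Fin 9 → ℝ)
  fin_cases i
  · exact Or.inl ⟨hi 1, hi 2, hi 3, hi 4, hi 5, hi 6, hi 7, hi 8⟩
  · exact Or.inr (Or.inl ⟨hi 0, hi 2, hi 3, hi 4, hi 5, hi 6, hi 7, hi 8⟩)
  · exact Or.inr (Or.inr (Or.inl ⟨hi 0, hi 1, hi 3, hi 4, hi 5, hi 6, hi 7, hi 8⟩))
  · exact Or.inr (Or.inr (Or.inr (Or.inl ⟨hi 0, hi 1, hi 2, hi 4, hi 5, hi 6, hi 7, hi 8⟩)))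
  · exact Or.inr (Or.inr (Or.inr (Or.inr (Or.inl ⟨hi 0, hi 1, hi 2, hi 3, hi 5, hi 6, hi 7, hi 8⟩))))
  · exact Or.inr (Or.inr (Or.inr (Or.inr (Or.inr (Or.inl ⟨hi 0, hi 1, hi 2, hi 3, hi 4, hi 6, hi 7, hi 8⟩)))))
  · exact Or.inr (Or.inr (Or.inr (Or.inr (Or.inr (Or.inr (Or.inl ⟨hi 0, hi 1, hi 2, hi 3, hi 4, hi 5, hi 7, hi 8⟩))))))
  · exact Or.inr (Or.inr (Or.inr (Or.inr (Or.inr (Or.inr (Or.inr (Or.inl ⟨hi 0, hi 1, hi 2, hi 3, hi 4, hi 5, hi 6, hi 8⟩)))))))
  · exact Or.inr (Or.inr (Or.inr (Or.inr (Or.inr (Or.inr (Or.inr (Or.inr (⟨hi 0, hi 1, hi 2, hi 3, hi 4, hi 5, hi 6, hi 7⟩))))))))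

theorem decomp (a b ab c ac bc d ad bd cd : ℝ)
    (f0 : 0 ≤ -ab - c + ac + bc - d + ad + bd - cd)
    (f1 : 0 ≤ -b + ab - ac + bc - d + ad - bd + cd)
    (f2 : 0 ≤ -a + ab + ac - bc - d - ad + bd + cd)
    (f3 : 0 ≤ -b + ab - c + ac - bc - ad + bd + cd)
    (f4 : 0 ≤ -a + ab - c - ac + bc + ad - bd + cd)
    (f5 : 0 ≤ -a - b - ab + ac + bc + ad + bd - cd)
    (f6 : 0 ≤ -bc - d + bd + cd)
    (f7 : 0 ≤ -ac - d + ad + cd)
    (f8 : 0 ≤ -d + cd)
    (f9 : 0 ≤ -ab - d + ad + bd)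
    (f10 : 0 ≤ -d + bd)
    (f11 : 0 ≤ -d + ad)
    (f12 : 0 ≤ -c + cd)
    (f13 : 0 ≤ -c + ac - ad + cd)
    (f14 : 0 ≤ -c + bc - bd + cd)
    (f15 : 0 ≤ -ab - c + ac + bc)
    (f16 : 0 ≤ -c + bc)
    (f17 : 0 ≤ -c + ac)
    (f18 : 0 ≤ a + b - ab)
    (f19 : 0 ≤ -b + bd)
    (f20 : 0 ≤ -b + ab - ad + bd)
    (f21 : 0 ≤ -b + bc + bd - cd)
    (f22 : 0 ≤ -b + bc)
    (f23 : 0 ≤ -b + ab - ac + bc)
    (f24 : 0 ≤ -b + ab)
    (f25 : 0 ≤ a + c - ac)
    (f26 : 0 ≤ a + d - ad)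
    (f27 : 0 ≤ -a + ad)
    (f28 : 0 ≤ -a + ab + ad - bd)
    (f29 : 0 ≤ -a + ac + ad - cd)
    (f30 : 0 ≤ -a + ac)
    (f31 : 0 ≤ -a + ab)
    (f32 : 0 ≤ -a + ab + ac - bc)
    (f33 : 0 ≤ b + c - bc)
    (f34 : 0 ≤ b + d - bd)
    (f35 : 0 ≤ c + d - cd) :
    ∃ l0 l1 l2 l3 l4 l5 l6 l7 l8 l9 l10 l11 l12 l13 l14 l15 l16 l17 l18 : ℝ, 0 ≤ l0 ∧ 0 ≤ l1 ∧ 0 ≤ l2 ∧ 0 ≤ l3 ∧ 0 ≤ l4 ∧ 0 ≤ l5 ∧ 0 ≤ l6 ∧ 0 ≤ l7 ∧ 0 ≤ l8 ∧ 0 ≤ l9 ∧ 0 ≤ l10 ∧ 0 ≤ l11 ∧ 0 ≤ l12 ∧ 0 ≤ l13 ∧ 0 ≤ l14 ∧ 0 ≤ l15 ∧ 0 ≤ l16 ∧ 0 ≤ l17 ∧ 0 ≤ l18 ∧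
      a = l3 + l7 + l8 + l9 + l11 + l12 + l13 + l14 + l15 + l16 + l17 + 2 * l18 ∧
      b = l2 + l5 + l6 + l9 + l10 + l12 + l13 + l14 + l15 + l16 + 2 * l17 + l18 ∧
      ab = l2 + l3 + l5 + l6 + l7 + l8 + l9 + l10 + l11 + l12 + l13 + l14 + 2 * l15 + 2 * l16 + 2 * l17 + 2 * l18 ∧
      c = l1 + l4 + l6 + l8 + l10 + l11 + l13 + l14 + l15 + 2 * l16 + l17 + l18 ∧
      ac = l1 + l3 + l4 + l6 + l7 + l8 + l9 + l10 + l11 + l12 + l13 + l14 + 2 * l15 + 2 * l16 + 2 * l17 + 2 * l18 ∧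
      bc = l1 + l2 + l4 + l5 + l6 + l8 + l9 + l10 + l11 + l12 + l13 + l14 + 2 * l15 + 2 * l16 + 2 * l17 + 2 * l18 ∧
      d = l0 + l4 + l5 + l7 + l10 + l11 + l12 + l14 + 2 * l15 + l16 + l17 + l18 ∧
      ad = l0 + l3 + l4 + l5 + l7 + l8 + l9 + l10 + l11 + l12 + l13 + l14 + 2 * l15 + 2 * l16 + 2 * l17 + 2 * l18 ∧
      bd = l0 + l2 + l4 + l5 + l6 + l7 + l9 + l10 + l11 + l12 + l13 + l14 + 2 * l15 + 2 * l16 + 2 * l17 + 2 * l18 ∧
      cd = l0 + l1 + l4 + l5 + l6 + l7 + l8 + l10 + l11 + l12 + l13 + l14 + 2 * l15 + 2 * l16 + 2 * l17 + 2 * l18 := by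
  rcases mn9 (-bc - d + bd + cd) (-ac - d + ad + cd) (-c + cd) (-ab - d + ad + bd) (-b + bd) (-a + ad) (-b + ab - c + ac - bc - ad + bd + cd) (-a + ab - c - ac + bc + ad - bd + cd) (-a - b - ab + ac + bc + ad + bd - cd) with ⟨m0_1, m0_2, m0_3, m0_4, m0_5, m0_6, m0_7, m0_8⟩ | ⟨m0_0, m0_2, m0_3, m0_4, m0_5, m0_6, m0_7, m0_8⟩ | ⟨m0_0, m0_1, m0_3, m0_4, m0_5, m0_6, m0_7, m0_8⟩ | ⟨m0_0, m0_1, m0_2, m0_4, m0_5, m0_6, m0_7, m0_8⟩ | ⟨m0_0, m0_1, m0_2, m0_3, m0_5, m0_6, m0_7, m0_8⟩ | ⟨m0_0, m0_1, m0_2, m0_3, m0_4, m0_6, m0_7, m0_8⟩ | ⟨m0_0, m0_1, m0_2, m0_3, m0_4, m0_5, m0_7, m0_8⟩ | ⟨m0_0, m0_1, m0_2, m0_3, m0_4, m0_5, m0_6, m0_8⟩ | ⟨m0_0, m0_1, m0_2, m0_3, m0_4, m0_5, m0_6, m0_7⟩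
  ·
    rcases mn4 (-c + ac - ad + cd) (-d + cd) (-a + ac) (-a + ab + ac - bc - d - ad + bd + cd) with ⟨m1_1, m1_2, m1_3⟩ | ⟨m1_0, m1_2, m1_3⟩ | ⟨m1_0, m1_1, m1_3⟩ | ⟨m1_0, m1_1, m1_2⟩
    ·
      rcases mn3 (-b + ab - ad + bd) (-a + ab + c - bc - d + bd) (-d + bd) with ⟨m2_1, m2_2⟩ | ⟨m2_0, m2_2⟩ | ⟨m2_0, m2_1⟩
      ·
        refine ⟨-bc - d + bd + cd, -c + ac - ad + cd, -b + ab - ad + bd, -b + ab - c + ac + d - ad, -b + bc + d - cd, -c + bc + d - bd, 0, 0, c - ac - d + ad, b - ab - d + ad, -a + b + c - bc - d + ad, 0, 0, 0, a + d - ad, 0, 0, 0, 0, by linarith, by linarith, by linarith, by linarith, by linarith, by linarith, le_rfl, le_rfl, by linarith, by linarith, by linarith, le_rfl, le_rfl, le_rfl, by linarith, le_rfl, le_rfl, le_rfl, le_rfl, ?_⟩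
        refine ⟨by ring, by ring, by ring, by ring, by ring, by ring, by ring, by ring, by ring, by ring⟩
      ·
        refine ⟨-bc - d + bd + cd, -c + ac - ad + cd, -a + ab + c - bc - d + bd, -a + ab + ac - bc, -a + c + ad - cd, -c + bc + d - bd, 0, 0, c - ac - d + ad, a - ab - c + bc, 0, a - b - c + bc + d - ad, 0, 0, b + c - bc, 0, 0, 0, 0, by linarith, by linarith, by linarith, by linarith, by linarith, by linarith, le_rfl, le_rfl, by linarith, by linarith, le_rfl, by linarith, le_rfl, le_rfl, by linarith, le_rfl, le_rfl, le_rfl, le_rfl, ?_⟩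
        refine ⟨by ring, by ring, by ring, by ring, by ring, by ring, by ring, by ring, by ring, by ring⟩
      ·
        refine ⟨-bc - d + bd + cd, -c + ac - ad + cd, -d + bd, -c + ac, -ab + bc + ad - cd, -c + bc + d - bd, 0, 0, c - ac - d + ad, 0, -a + ab + c - bc, -b + ab + d - ad, 0, 0, a + b - ab, 0, 0, 0, 0, by linarith, by linarith, by linarith, by linarith, by linarith, by linarith, le_rfl, le_rfl, by linarith, le_rfl, by linarith, by linarith, le_rfl, le_rfl, by linarith, le_rfl, le_rfl, le_rfl, le_rfl, ?_⟩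
        refine ⟨by ring, by ring, by ring, by ring, by ring, by ring, by ring, by ring, by ring, by ring⟩
    ·
      rcases mn3 (-b + ab - ad + bd) (-a + ab + ac - bc - ad + bd) (-d + bd) with ⟨m2_1, m2_2⟩ | ⟨m2_0, m2_2⟩ | ⟨m2_0, m2_1⟩
      ·
        refine ⟨-bc - d + bd + cd, -d + cd, -b + ab - ad + bd, -b + ab, -b + bc + d - cd, -ac + bc + ad - bd, 0, 0, 0, b - ab - d + ad, -a + b + ac - bc, 0, -c + ac + d - ad, 0, a + c - ac, 0, 0, 0, 0, by linarith, by linarith, by linarith, by linarith, by linarith, by linarith, le_rfl, le_rfl, le_rfl, by linarith, by linarith, le_rfl, by linarith, le_rfl, by linarith, le_rfl, le_rfl, le_rfl, le_rfl, ?_⟩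
        refine ⟨by ring, by ring, by ring, by ring, by ring, by ring, by ring, by ring, by ring, by ring⟩
      ·
        refine ⟨-bc - d + bd + cd, -d + cd, -a + ab + ac - bc - ad + bd, -a + ab + ac - bc, -a + ac + d - cd, -ac + bc + ad - bd, 0, 0, 0, a - ab - ac + bc - d + ad, 0, a - b - ac + bc, -c + ac + d - ad, 0, b + c - bc, 0, 0, 0, 0, by linarith, by linarith, by linarith, by linarith, by linarith, by linarith, le_rfl, le_rfl, le_rfl, by linarith, le_rfl, by linarith, by linarith, le_rfl, by linarith, le_rfl, le_rfl, le_rfl, le_rfl, ?_⟩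
        refine ⟨by ring, by ring, by ring, by ring, by ring, by ring, by ring, by ring, by ring, by ring⟩
      ·
        rcases mn2 (-a + ab + ac - bc + d - ad) (b + c - bc) with m6_0 | m6_0
        ·
          refine ⟨-bc - d + bd + cd, -d + cd, -d + bd, -d + ad, -ab + bc + ad - cd, -ac + bc + ad - bd, 0, 0, 0, 0, -a + ab + ac - bc + d - ad, -b + ab + d - ad, -c + ac + d - ad, 0, a + b - ab + c - ac - d + ad, 0, 0, 0, 0, by linarith, by linarith, by linarith, by linarith, by linarith, by linarith, le_rfl, le_rfl, le_rfl, le_rfl, by linarith, by linarith, by linarith, le_rfl, by linarith, le_rfl, le_rfl, le_rfl, le_rfl, ?_⟩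
          refine ⟨by ring, by ring, by ring, by ring, by ring, by ring, by ring, by ring, by ring, by ring⟩
        ·
          refine ⟨-bc - d + bd + cd, -d + cd, -d + bd, -d + ad, -ab + bc + ad - cd, -ac + bc + ad - bd, 0, 0, 0, 0, b + c - bc, a + c - ac, a + b - ab, 0, 0, -a - b + ab - c + ac + d - ad, 0, 0, 0, by linarith, by linarith, by linarith, by linarith, by linarith, by linarith, le_rfl, le_rfl, le_rfl, le_rfl, by linarith, by linarith, by linarith, le_rfl, le_rfl, by linarith, le_rfl, le_rfl, le_rfl, ?_⟩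
          refine ⟨by ring, by ring, by ring, by ring, by ring, by ring, by ring, by ring, by ring, by ring⟩
    ·
      refine ⟨-bc - d + bd + cd, -a + ac, ab - bc - d - ad + bd + cd, -a + ab + ac - bc, 0, -a + bc + d + ad - bd - cd, 0, 0, a - ac - d + cd, -ab + bc + ad - cd, 0, -b + bc + d - cd, a - c - ad + cd, 0, b + c - bc, 0, 0, 0, 0, by linarith, by linarith, by linarith, by linarith, le_rfl, by linarith, le_rfl, le_rfl, by linarith, by linarith, le_rfl, by linarith, by linarith, le_rfl, by linarith, le_rfl, le_rfl, le_rfl, le_rfl, ?_⟩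
      refine ⟨by ring, by ring, by ring, by ring, by ring, by ring, by ring, by ring, by ring, by ring⟩
    ·
      refine ⟨-bc - d + bd + cd, -a + ab + ac - bc - d - ad + bd + cd, 0, -a + ab + ac - bc, -ab + bc + d + ad - bd - cd, -a + ab, 0, 0, a - ab - ac + bc + ad - bd, -d + bd, 0, -b + ab - ad + bd, a - ab - c + bc + d - bd, 0, b + c - bc, 0, 0, 0, 0, by linarith, by linarith, le_rfl, by linarith, by linarith, by linarith, le_rfl, le_rfl, by linarith, by linarith, le_rfl, by linarith, by linarith, le_rfl, by linarith, le_rfl, le_rfl, le_rfl, le_rfl, ?_⟩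
      refine ⟨by ring, by ring, by ring, by ring, by ring, by ring, by ring, by ring, by ring, by ring⟩
  ·
    rcases mn4 (-c + bc - bd + cd) (-d + cd) (-b + bc) (-b + ab - ac + bc - d + ad - bd + cd) with ⟨m1_1, m1_2, m1_3⟩ | ⟨m1_0, m1_2, m1_3⟩ | ⟨m1_0, m1_1, m1_3⟩ | ⟨m1_0, m1_1, m1_2⟩
    ·
      rcases mn3 (-b + ab - ac + bc) (-a + ab - c + bc + d - bd) (-c + bc) with ⟨m2_1, m2_2⟩ | ⟨m2_0, m2_2⟩ | ⟨m2_0, m2_1⟩
      ·
        refine ⟨-ac - d + ad + cd, -c + bc - bd + cd, -b + ab - ac + bc, -b + ab + c - ac - d + ad, -b + c + bd - cd, 0, c - bc - d + bd, -c + ac + d - ad, 0, b - ab - c + ac, -a + b - c + ac + d - bd, 0, 0, 0, a + c - ac, 0, 0, 0, 0, by linarith, by linarith, by linarith, by linarith, by linarith, le_rfl, by linarith, by linarith, le_rfl, by linarith, by linarith, le_rfl, le_rfl, le_rfl, by linarith, le_rfl, le_rfl, le_rfl, le_rfl, ?_⟩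
        refine ⟨by ring, by ring, by ring, by ring, by ring, by ring, by ring, by ring, by ring, by ring⟩
      ·
        refine ⟨-ac - d + ad + cd, -c + bc - bd + cd, -a + ab - c + bc + d - bd, -a + ab + ad - bd, -a + ac + d - cd, 0, c - bc - d + bd, -c + ac + d - ad, 0, a - ab - d + bd, 0, a - b + c - ac - d + bd, 0, 0, b + d - bd, 0, 0, 0, 0, by linarith, by linarith, by linarith, by linarith, by linarith, le_rfl, by linarith, by linarith, le_rfl, by linarith, le_rfl, by linarith, le_rfl, le_rfl, by linarith, le_rfl, le_rfl, le_rfl, le_rfl, ?_⟩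
        refine ⟨by ring, by ring, by ring, by ring, by ring, by ring, by ring, by ring, by ring, by ring⟩
      ·
        refine ⟨-ac - d + ad + cd, -c + bc - bd + cd, -c + bc, -d + ad, -ab + ac + bd - cd, 0, c - bc - d + bd, -c + ac + d - ad, 0, 0, -a + ab + d - bd, -b + ab + c - ac, 0, 0, a + b - ab, 0, 0, 0, 0, by linarith, by linarith, by linarith, by linarith, by linarith, le_rfl, by linarith, by linarith, le_rfl, le_rfl, by linarith, by linarith, le_rfl, le_rfl, by linarith, le_rfl, le_rfl, le_rfl, le_rfl, ?_⟩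
        refine ⟨by ring, by ring, by ring, by ring, by ring, by ring, by ring, by ring, by ring, by ring⟩
    ·
      rcases mn3 (-b + ab - ac + bc) (-a + ab) (-d + bd) with ⟨m2_1, m2_2⟩ | ⟨m2_0, m2_2⟩ | ⟨m2_0, m2_1⟩
      ·
        refine ⟨-ac - d + ad + cd, -d + cd, -b + ab - ac + bc, -b + ab - ac + bc + ad - bd, -b + bc + d - cd, 0, 0, ac - bc - ad + bd, 0, b - ab + ac - bc - d + bd, -a + b + ac - bc, 0, -c + bc + d - bd, 0, a + c - ac, 0, 0, 0, 0, by linarith, by linarith, by linarith, by linarith, by linarith, le_rfl, le_rfl, by linarith, le_rfl, by linarith, by linarith, le_rfl, by linarith, le_rfl, by linarith, le_rfl, le_rfl, le_rfl, le_rfl, ?_⟩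
        refine ⟨by ring, by ring, by ring, by ring, by ring, by ring, by ring, by ring, by ring, by ring⟩
      ·
        refine ⟨-ac - d + ad + cd, -d + cd, -a + ab, -a + ab + ad - bd, -a + ac + d - cd, 0, 0, ac - bc - ad + bd, 0, a - ab - d + bd, 0, a - b - ac + bc, -c + bc + d - bd, 0, b + c - bc, 0, 0, 0, 0, by linarith, by linarith, by linarith, by linarith, by linarith, le_rfl, le_rfl, by linarith, le_rfl, by linarith, le_rfl, by linarith, by linarith, le_rfl, by linarith, le_rfl, le_rfl, le_rfl, le_rfl, ?_⟩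
        refine ⟨by ring, by ring, by ring, by ring, by ring, by ring, by ring, by ring, by ring, by ring⟩
      ·
        rcases mn2 (-a + ab + d - bd) (b + c - bc) with m6_0 | m6_0
        ·
          refine ⟨-ac - d + ad + cd, -d + cd, -d + bd, -d + ad, -ab + ac + bd - cd, 0, 0, ac - bc - ad + bd, 0, 0, -a + ab + d - bd, -b + ab - ac + bc + d - bd, -c + bc + d - bd, 0, a + b - ab + c - bc - d + bd, 0, 0, 0, 0, by linarith, by linarith, by linarith, by linarith, by linarith, le_rfl, le_rfl, by linarith, le_rfl, le_rfl, by linarith, by linarith, by linarith, le_rfl, by linarith, le_rfl, le_rfl, le_rfl, le_rfl, ?_⟩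
          refine ⟨by ring, by ring, by ring, by ring, by ring, by ring, by ring, by ring, by ring, by ring⟩
        ·
          refine ⟨-ac - d + ad + cd, -d + cd, -d + bd, -d + ad, -ab + ac + bd - cd, 0, 0, ac - bc - ad + bd, 0, 0, b + c - bc, a + c - ac, a + b - ab, 0, 0, -a - b + ab - c + bc + d - bd, 0, 0, 0, by linarith, by linarith, by linarith, by linarith, by linarith, le_rfl, le_rfl, by linarith, le_rfl, le_rfl, by linarith, by linarith, by linarith, le_rfl, le_rfl, by linarith, le_rfl, le_rfl, le_rfl, ?_⟩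
          refine ⟨by ring, by ring, by ring, by ring, by ring, by ring, by ring, by ring, by ring, by ring⟩
    ·
      refine ⟨-ac - d + ad + cd, -b + bc, -b + ab - ac + bc, ab - ac - d + ad - bd + cd, 0, 0, b - bc - d + cd, -b + ac + d - ad + bd - cd, 0, -ab + ac + bd - cd, -a + ac + d - cd, 0, b - c - bd + cd, 0, a + c - ac, 0, 0, 0, 0, by linarith, by linarith, by linarith, by linarith, le_rfl, le_rfl, by linarith, by linarith, le_rfl, by linarith, by linarith, le_rfl, by linarith, le_rfl, by linarith, le_rfl, le_rfl, le_rfl, le_rfl, ?_⟩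
      refine ⟨by ring, by ring, by ring, by ring, by ring, by ring, by ring, by ring, by ring, by ring⟩
    ·
      refine ⟨-ac - d + ad + cd, -b + ab - ac + bc - d + ad - bd + cd, -b + ab - ac + bc, 0, -ab + ac + d - ad + bd - cd, 0, b - ab + ac - bc - ad + bd, -b + ab, 0, -d + ad, -a + ab + ad - bd, 0, b - ab - c + ac + d - ad, 0, a + c - ac, 0, 0, 0, 0, by linarith, by linarith, by linarith, le_rfl, by linarith, le_rfl, by linarith, by linarith, le_rfl, by linarith, by linarith, le_rfl, by linarith, le_rfl, by linarith, le_rfl, le_rfl, le_rfl, le_rfl, ?_⟩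
      refine ⟨by ring, by ring, by ring, by ring, by ring, by ring, by ring, by ring, by ring, by ring⟩
  ·
    rcases mn5 (-c + bc) (-b + ab - ac + bc) (-a + ab - ac + bc + ad - bd) (-b + ab - ad + bd) (-a + ab) with ⟨m1_1, m1_2, m1_3, m1_4⟩ | ⟨m1_0, m1_2, m1_3, m1_4⟩ | ⟨m1_0, m1_1, m1_3, m1_4⟩ | ⟨m1_0, m1_1, m1_2, m1_4⟩ | ⟨m1_0, m1_1, m1_2, m1_3⟩
    ·
      rcases mn4 (-ab + c - d + ad + bd - cd) (-b + c + bd - cd) (-a + c + ad - cd) (-ab - c + ac + bc) with ⟨m3_1, m3_2, m3_3⟩ | ⟨m3_0, m3_2, m3_3⟩ | ⟨m3_0, m3_1, m3_3⟩ | ⟨m3_0, m3_1, m3_2⟩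
      ·
        refine ⟨-c + cd, -2 * c + ac + bc + d - ad - bd + cd, -c + bc, -c + ac, -ab + c - d + ad + bd - cd, 0, c - bc - d + bd, 0, c - ac - d + ad, 0, -a + ab + d - bd, -b + ab + d - ad, 0, 0, a + b - ab, 0, 0, 0, 0, by linarith, by linarith, by linarith, by linarith, by linarith, le_rfl, by linarith, le_rfl, by linarith, le_rfl, by linarith, by linarith, le_rfl, le_rfl, by linarith, le_rfl, le_rfl, le_rfl, le_rfl, ?_⟩
        refine ⟨by ring, by ring, by ring, by ring, by ring, by ring, by ring, by ring, by ring, by ring⟩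
      ·
        refine ⟨-c + cd, b - ab - 2 * c + ac + bc - bd + cd, -c + bc, -c + ac, -b + c + bd - cd, 0, -b + ab + c - bc - ad + bd, 0, -b + ab + c - ac, 0, -a + b + ad - bd, 0, 0, b - ab - d + ad, a + d - ad, 0, 0, 0, 0, by linarith, by linarith, by linarith, by linarith, by linarith, le_rfl, by linarith, le_rfl, by linarith, le_rfl, by linarith, le_rfl, le_rfl, by linarith, by linarith, le_rfl, le_rfl, le_rfl, le_rfl, ?_⟩
        refine ⟨by ring, by ring, by ring, by ring, by ring, by ring, by ring, by ring, by ring, by ring⟩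
      ·
        refine ⟨-c + cd, a - ab - 2 * c + ac + bc - ad + cd, -c + bc, -c + ac, -a + c + ad - cd, 0, -a + ab + c - bc, 0, -a + ab + c - ac + ad - bd, 0, 0, a - b - ad + bd, 0, a - ab - d + bd, b + d - bd, 0, 0, 0, 0, by linarith, by linarith, by linarith, by linarith, by linarith, le_rfl, by linarith, le_rfl, by linarith, le_rfl, le_rfl, by linarith, le_rfl, by linarith, by linarith, le_rfl, le_rfl, le_rfl, le_rfl, ?_⟩
        refine ⟨by ring, by ring, by ring, by ring, by ring, by ring, by ring, by ring, by ring, by ring⟩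
      ·
        rcases mn2 (-a + ab + 2 * c - ac - bc + ad - cd) (b + d - bd) with m6_0 | m6_0
        ·
          refine ⟨-c + cd, 0, -c + bc, -c + ac, -ab - c + ac + bc, 0, -c + ac - ad + cd, 0, -c + bc - bd + cd, 0, -a + ab + 2 * c - ac - bc + ad - cd, -b + ab + 2 * c - ac - bc + bd - cd, 0, 2 * c - ac - bc - d + ad + bd - cd, a + b - ab - 2 * c + ac + bc + d - ad - bd + cd, 0, 0, 0, 0, by linarith, le_rfl, by linarith, by linarith, by linarith, le_rfl, by linarith, le_rfl, by linarith, le_rfl, by linarith, by linarith, le_rfl, by linarith, by linarith, le_rfl, le_rfl, le_rfl, le_rfl, ?_⟩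
          refine ⟨by ring, by ring, by ring, by ring, by ring, by ring, by ring, by ring, by ring, by ring⟩
        ·
          refine ⟨-c + cd, 0, -c + bc, -c + ac, -ab - c + ac + bc, 0, -c + ac - ad + cd, 0, -c + bc - bd + cd, 0, b + d - bd, a + d - ad, 0, a + b - ab, 0, 0, -a - b + ab + 2 * c - ac - bc - d + ad + bd - cd, 0, 0, by linarith, le_rfl, by linarith, by linarith, by linarith, le_rfl, by linarith, le_rfl, by linarith, le_rfl, by linarith, by linarith, le_rfl, by linarith, le_rfl, le_rfl, by linarith, le_rfl, le_rfl, ?_⟩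
          refine ⟨by ring, by ring, by ring, by ring, by ring, by ring, by ring, by ring, by ring, by ring⟩
    ·
      refine ⟨-c + cd, -c + bc - bd + cd, -b + ab - ac + bc, -b + ab, -b + c + bd - cd, 0, ac - bc - ad + bd, 0, 0, b - ab - c + ac, -a + b + ad - bd, 0, 0, c - ac - d + ad, a + d - ad, 0, 0, 0, 0, by linarith, by linarith, by linarith, by linarith, by linarith, le_rfl, by linarith, le_rfl, le_rfl, by linarith, by linarith, le_rfl, le_rfl, by linarith, by linarith, le_rfl, le_rfl, le_rfl, le_rfl, ?_⟩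
      refine ⟨by ring, by ring, by ring, by ring, by ring, by ring, by ring, by ring, by ring, by ring⟩
    ·
      refine ⟨-c + cd, -c + bc - bd + cd, -a + ab - ac + bc + ad - bd, -a + ab + ad - bd, -a + c + ad - cd, 0, ac - bc - ad + bd, 0, 0, a - ab - c + ac - ad + bd, 0, a - b - ad + bd, 0, c - ac - d + ad, b + d - bd, 0, 0, 0, 0, by linarith, by linarith, by linarith, by linarith, by linarith, le_rfl, by linarith, le_rfl, le_rfl, by linarith, le_rfl, by linarith, le_rfl, by linarith, by linarith, le_rfl, le_rfl, le_rfl, le_rfl, ?_⟩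
      refine ⟨by ring, by ring, by ring, by ring, by ring, by ring, by ring, by ring, by ring, by ring⟩
    ·
      refine ⟨-c + cd, -c + ac - ad + cd, -b + ab - ad + bd, -b + ab + ac - bc - ad + bd, -b + c + bd - cd, 0, 0, 0, -ac + bc + ad - bd, b - ab - c + bc + ad - bd, -a + b + ad - bd, 0, 0, c - bc - d + bd, a + d - ad, 0, 0, 0, 0, by linarith, by linarith, by linarith, by linarith, by linarith, le_rfl, le_rfl, le_rfl, by linarith, by linarith, by linarith, le_rfl, le_rfl, by linarith, by linarith, le_rfl, le_rfl, le_rfl, le_rfl, ?_⟩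
      refine ⟨by ring, by ring, by ring, by ring, by ring, by ring, by ring, by ring, by ring, by ring⟩
    ·
      refine ⟨-c + cd, -c + ac - ad + cd, -a + ab, -a + ab + ac - bc, -a + c + ad - cd, 0, 0, 0, -ac + bc + ad - bd, a - ab - c + bc, 0, a - b - ad + bd, 0, c - bc - d + bd, b + d - bd, 0, 0, 0, 0, by linarith, by linarith, by linarith, by linarith, by linarith, le_rfl, le_rfl, le_rfl, by linarith, by linarith, le_rfl, by linarith, le_rfl, by linarith, by linarith, le_rfl, le_rfl, le_rfl, le_rfl, ?_⟩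
      refine ⟨by ring, by ring, by ring, by ring, by ring, by ring, by ring, by ring, by ring, by ring⟩
  ·
    rcases mn5 (-ab - c + ac + bc) (-a - b + ac + bc + d - cd) (-b + bc) (-a + ac) (-d + cd) with ⟨m1_1, m1_2, m1_3, m1_4⟩ | ⟨m1_0, m1_2, m1_3, m1_4⟩ | ⟨m1_0, m1_1, m1_3, m1_4⟩ | ⟨m1_0, m1_1, m1_2, m1_4⟩ | ⟨m1_0, m1_1, m1_2, m1_3⟩
    ·
      rcases mn4 (-b + bc + bd - cd) (-d + bd) (-c + bc) (-ab - c + ac + bc - d + ad + bd - cd) with ⟨m2_1, m2_2, m2_3⟩ | ⟨m2_0, m2_2, m2_3⟩ | ⟨m2_0, m2_1, m2_3⟩ | ⟨m2_0, m2_1, m2_2⟩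
      ·
        refine ⟨-ab - d + ad + bd, -ab - c + ac + bc, -b + bc + bd - cd, b - ab - c + ac - d + ad, 0, b - c - bd + cd, b - bc - d + cd, -b + ab + d - ad, -b + ab + c - ac, 0, -a - b + ab + c + d - cd, 0, 0, 0, a + b - ab, 0, 0, 0, 0, by linarith, by linarith, by linarith, by linarith, le_rfl, by linarith, by linarith, by linarith, by linarith, le_rfl, by linarith, le_rfl, le_rfl, le_rfl, by linarith, le_rfl, le_rfl, le_rfl, le_rfl, ?_⟩
        refine ⟨by ring, by ring, by ring, by ring, by ring, by ring, by ring, by ring, by ring, by ring⟩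
      ·
        refine ⟨-ab - d + ad + bd, -ab - c + ac + bc, -d + bd, -ab - c + ac + bc + ad - cd, 0, -c + bc + d - bd, 0, ab - bc - ad + cd, ab + c - ac - bc - d + cd, 0, -a + ab + c - bc, -b + bc + d - cd, 0, 0, a + b - ab, 0, 0, 0, 0, by linarith, by linarith, by linarith, by linarith, le_rfl, by linarith, le_rfl, by linarith, by linarith, le_rfl, by linarith, by linarith, le_rfl, le_rfl, by linarith, le_rfl, le_rfl, le_rfl, le_rfl, ?_⟩
        refine ⟨by ring, by ring, by ring, by ring, by ring, by ring, by ring, by ring, by ring, by ring⟩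
      ·
        refine ⟨-ab - d + ad + bd, -ab - c + ac + bc, -c + bc, -ab + ac - d + ad + bd - cd, 0, 0, c - bc - d + bd, ab - c + d - ad - bd + cd, ab - ac - bd + cd, 0, -a + ab + d - bd, -b + c + bd - cd, 0, 0, a + b - ab, 0, 0, 0, 0, by linarith, by linarith, by linarith, by linarith, le_rfl, le_rfl, by linarith, by linarith, by linarith, le_rfl, by linarith, by linarith, le_rfl, le_rfl, by linarith, le_rfl, le_rfl, le_rfl, le_rfl, ?_⟩
        refine ⟨by ring, by ring, by ring, by ring, by ring, by ring, by ring, by ring, by ring, by ring⟩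
      ·
        refine ⟨-ab - d + ad + bd, -ab - c + ac + bc, -ab - c + ac + bc - d + ad + bd - cd, 0, 0, ab - ac + d - ad - bd + cd, ab + c - ac - bc - ad + cd, -c + ac, -d + ad, 0, -a + ac + ad - cd, -b + ab + c - ac + d - ad, 0, 0, a + b - ab, 0, 0, 0, 0, by linarith, by linarith, by linarith, le_rfl, le_rfl, by linarith, by linarith, by linarith, by linarith, le_rfl, by linarith, by linarith, le_rfl, le_rfl, by linarith, le_rfl, le_rfl, le_rfl, le_rfl, ?_⟩
        refine ⟨by ring, by ring, by ring, by ring, by ring, by ring, by ring, by ring, by ring, by ring⟩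
    ·
      refine ⟨-ab - d + ad + bd, -a - b + ac + bc + d - cd, -b + bc + bd - cd, -a + ac + ad - cd, 0, -a + ab + d - bd, b - bc - d + cd, -b + ab + d - ad, a - ac - d + cd, 0, 0, 0, a + b - ab - c - d + cd, 0, c + d - cd, 0, 0, 0, 0, by linarith, by linarith, by linarith, by linarith, le_rfl, by linarith, by linarith, by linarith, by linarith, le_rfl, le_rfl, le_rfl, by linarith, le_rfl, by linarith, le_rfl, le_rfl, le_rfl, le_rfl, ?_⟩
      refine ⟨by ring, by ring, by ring, by ring, by ring, by ring, by ring, by ring, by ring, by ring⟩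
    ·
      refine ⟨-ab - d + ad + bd, -b + bc, -b + bc + bd - cd, -d + ad, 0, ab - ac - bd + cd, b - bc - d + cd, -b + ab + d - ad, 0, 0, -a + ac + d - cd, 0, b - ab - c + ac, 0, a + c - ac, 0, 0, 0, 0, by linarith, by linarith, by linarith, by linarith, le_rfl, by linarith, by linarith, by linarith, le_rfl, le_rfl, by linarith, le_rfl, by linarith, le_rfl, by linarith, le_rfl, le_rfl, le_rfl, le_rfl, ?_⟩
      refine ⟨by ring, by ring, by ring, by ring, by ring, by ring, by ring, by ring, by ring, by ring⟩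
    ·
      refine ⟨-ab - d + ad + bd, -a + ac, -d + bd, -a + ac + ad - cd, 0, -a + ab + d - bd, 0, ab - bc - ad + cd, a - ac - d + cd, 0, 0, -b + bc + d - cd, a - ab - c + bc, 0, b + c - bc, 0, 0, 0, 0, by linarith, by linarith, by linarith, by linarith, le_rfl, by linarith, le_rfl, by linarith, by linarith, le_rfl, le_rfl, by linarith, by linarith, le_rfl, by linarith, le_rfl, le_rfl, le_rfl, le_rfl, ?_⟩
      refine ⟨by ring, by ring, by ring, by ring, by ring, by ring, by ring, by ring, by ring, by ring⟩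
    ·
      rcases mn2 (-a + ac + d - cd) (b + c - bc) with m6_0 | m6_0
      ·
        refine ⟨-ab - d + ad + bd, -d + cd, -d + bd, -d + ad, 0, ab - ac - bd + cd, 0, ab - bc - ad + cd, 0, 0, -a + ac + d - cd, -b + bc + d - cd, -ab - c + ac + bc + d - cd, 0, a + b + c - ac - bc - d + cd, 0, 0, 0, 0, by linarith, by linarith, by linarith, by linarith, le_rfl, by linarith, le_rfl, by linarith, le_rfl, le_rfl, by linarith, by linarith, by linarith, le_rfl, by linarith, le_rfl, le_rfl, le_rfl, le_rfl, ?_⟩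
        refine ⟨by ring, by ring, by ring, by ring, by ring, by ring, by ring, by ring, by ring, by ring⟩
      ·
        refine ⟨-ab - d + ad + bd, -d + cd, -d + bd, -d + ad, 0, ab - ac - bd + cd, 0, ab - bc - ad + cd, 0, 0, b + c - bc, a + c - ac, a + b - ab, 0, 0, -a - b - c + ac + bc + d - cd, 0, 0, 0, by linarith, by linarith, by linarith, by linarith, le_rfl, by linarith, le_rfl, by linarith, le_rfl, le_rfl, by linarith, by linarith, by linarith, le_rfl, le_rfl, by linarith, le_rfl, le_rfl, le_rfl, ?_⟩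
        refine ⟨by ring, by ring, by ring, by ring, by ring, by ring, by ring, by ring, by ring, by ring⟩
  ·
    rcases mn5 (-ab - c + ac + bc) (-a - ab + ac + bc + ad - cd) (-b + bc) (-c + ac - ad + cd) (-a + ac) with ⟨m1_1, m1_2, m1_3, m1_4⟩ | ⟨m1_0, m1_2, m1_3, m1_4⟩ | ⟨m1_0, m1_1, m1_3, m1_4⟩ | ⟨m1_0, m1_1, m1_2, m1_4⟩ | ⟨m1_0, m1_1, m1_2, m1_3⟩
    ·
      refine ⟨-b + bd, -ab - c + ac + bc, -b + bc + bd - cd, -c + ac, 0, b - c - bd + cd, ab - bc - ad + cd, 0, -b + ab + c - ac, 0, -a + c + ad - cd, 0, 0, b - ab - d + ad, a + d - ad, 0, 0, 0, 0, by linarith, by linarith, by linarith, by linarith, le_rfl, by linarith, by linarith, le_rfl, by linarith, le_rfl, by linarith, le_rfl, le_rfl, by linarith, by linarith, le_rfl, le_rfl, le_rfl, le_rfl, ?_⟩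
      refine ⟨by ring, by ring, by ring, by ring, by ring, by ring, by ring, by ring, by ring, by ring⟩
    ·
      refine ⟨-b + bd, -a - ab + ac + bc + ad - cd, -b + bc + bd - cd, -a + ac + ad - cd, 0, -a + b + ad - bd, ab - bc - ad + cd, 0, a - b + ab - ac - ad + cd, 0, 0, 0, a - c - ad + cd, b - ab - d + ad, c + d - cd, 0, 0, 0, 0, by linarith, by linarith, by linarith, by linarith, le_rfl, by linarith, by linarith, le_rfl, by linarith, le_rfl, le_rfl, le_rfl, by linarith, by linarith, by linarith, le_rfl, le_rfl, le_rfl, le_rfl, ?_⟩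
      refine ⟨by ring, by ring, by ring, by ring, by ring, by ring, by ring, by ring, by ring, by ring⟩
    ·
      rcases mn4 (b - ac - d + ad - bd + cd) (b - c - bd + cd) (-a + b + ad - bd) (-b + ab - ac + bc) with ⟨m3_1, m3_2, m3_3⟩ | ⟨m3_0, m3_2, m3_3⟩ | ⟨m3_0, m3_1, m3_3⟩ | ⟨m3_0, m3_1, m3_2⟩
      ·
        refine ⟨-b + bd, -b + bc, -2 * b + ab + bc + d - ad + bd - cd, -b + ab, 0, b - ac - d + ad - bd + cd, b - bc - d + cd, 0, 0, b - ab - d + ad, -a + ac + d - cd, 0, -c + ac + d - ad, 0, a + c - ac, 0, 0, 0, 0, by linarith, by linarith, by linarith, by linarith, le_rfl, by linarith, by linarith, le_rfl, le_rfl, by linarith, by linarith, le_rfl, by linarith, le_rfl, by linarith, le_rfl, le_rfl, le_rfl, le_rfl, ?_⟩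
        refine ⟨by ring, by ring, by ring, by ring, by ring, by ring, by ring, by ring, by ring, by ring⟩
      ·
        refine ⟨-b + bd, -b + bc, -2 * b + ab + c - ac + bc + bd - cd, -b + ab, 0, b - c - bd + cd, b - c + ac - bc - ad + cd, 0, 0, b - ab - c + ac, -a + c + ad - cd, 0, 0, c - ac - d + ad, a + d - ad, 0, 0, 0, 0, by linarith, by linarith, by linarith, by linarith, le_rfl, by linarith, by linarith, le_rfl, le_rfl, by linarith, by linarith, le_rfl, le_rfl, by linarith, by linarith, le_rfl, le_rfl, le_rfl, le_rfl, ?_⟩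
        refine ⟨by ring, by ring, by ring, by ring, by ring, by ring, by ring, by ring, by ring, by ring⟩
      ·
        refine ⟨-b + bd, -b + bc, a - 2 * b + ab - ac + bc - ad + bd, -b + ab, 0, -a + b + ad - bd, -a + b + ac - bc, 0, 0, -a + b - ab + ac + ad - cd, 0, 0, a - c - ad + cd, a - ac - d + cd, c + d - cd, 0, 0, 0, 0, by linarith, by linarith, by linarith, by linarith, le_rfl, by linarith, by linarith, le_rfl, le_rfl, by linarith, le_rfl, le_rfl, by linarith, by linarith, by linarith, le_rfl, le_rfl, le_rfl, le_rfl, ?_⟩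
        refine ⟨by ring, by ring, by ring, by ring, by ring, by ring, by ring, by ring, by ring, by ring⟩
      ·
        rcases mn2 (-a + 2 * b - ab + ac - bc + ad - bd) (c + d - cd) with m6_0 | m6_0
        ·
          refine ⟨-b + bd, -b + bc, 0, -b + ab, 0, -b + ab - ac + bc, -b + ab - ad + bd, 0, 0, -b + bc + bd - cd, -a + 2 * b - ab + ac - bc + ad - bd, 0, 2 * b - ab - c + ac - bc - bd + cd, 2 * b - ab - bc - d + ad - bd + cd, a - 2 * b + ab + c - ac + bc + d - ad + bd - cd, 0, 0, 0, 0, by linarith, by linarith, le_rfl, by linarith, le_rfl, by linarith, by linarith, le_rfl, le_rfl, by linarith, by linarith, le_rfl, by linarith, by linarith, by linarith, le_rfl, le_rfl, le_rfl, le_rfl, ?_⟩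
          refine ⟨by ring, by ring, by ring, by ring, by ring, by ring, by ring, by ring, by ring, by ring⟩
        ·
          refine ⟨-b + bd, -b + bc, 0, -b + ab, 0, -b + ab - ac + bc, -b + ab - ad + bd, 0, 0, -b + bc + bd - cd, c + d - cd, 0, a + d - ad, a + c - ac, 0, 0, 0, -a + 2 * b - ab - c + ac - bc - d + ad - bd + cd, 0, by linarith, by linarith, le_rfl, by linarith, le_rfl, by linarith, by linarith, le_rfl, le_rfl, by linarith, by linarith, le_rfl, by linarith, by linarith, le_rfl, le_rfl, le_rfl, by linarith, le_rfl, ?_⟩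
          refine ⟨by ring, by ring, by ring, by ring, by ring, by ring, by ring, by ring, by ring, by ring⟩
    ·
      refine ⟨-b + bd, -c + ac - ad + cd, -b + ab - ad + bd, ab - c + ac - bc - ad + cd, 0, b - c - bd + cd, 0, 0, -b + c - ac + bc + ad - cd, -ab + bc + ad - cd, -a + c + ad - cd, 0, 0, b - bc - d + cd, a + d - ad, 0, 0, 0, 0, by linarith, by linarith, by linarith, by linarith, le_rfl, by linarith, le_rfl, le_rfl, by linarith, by linarith, by linarith, le_rfl, le_rfl, by linarith, by linarith, le_rfl, le_rfl, le_rfl, le_rfl, ?_⟩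
      refine ⟨by ring, by ring, by ring, by ring, by ring, by ring, by ring, by ring, by ring, by ring⟩
    ·
      refine ⟨-b + bd, -a + ac, -b + ab - ad + bd, -a + ab + ac - bc, 0, -a + b + ad - bd, 0, 0, a - b - ac + bc, -ab + bc + ad - cd, 0, 0, a - c - ad + cd, b - bc - d + cd, c + d - cd, 0, 0, 0, 0, by linarith, by linarith, by linarith, by linarith, le_rfl, by linarith, le_rfl, le_rfl, by linarith, by linarith, le_rfl, le_rfl, by linarith, by linarith, by linarith, le_rfl, le_rfl, le_rfl, le_rfl, ?_⟩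
      refine ⟨by ring, by ring, by ring, by ring, by ring, by ring, by ring, by ring, by ring, by ring⟩
  ·
    rcases mn5 (-ab - c + ac + bc) (-b - ab + ac + bc + bd - cd) (-c + bc - bd + cd) (-b + bc) (-a + ac) with ⟨m1_1, m1_2, m1_3, m1_4⟩ | ⟨m1_0, m1_2, m1_3, m1_4⟩ | ⟨m1_0, m1_1, m1_3, m1_4⟩ | ⟨m1_0, m1_1, m1_2, m1_4⟩ | ⟨m1_0, m1_1, m1_2, m1_3⟩
    ·
      refine ⟨-a + ad, -ab - c + ac + bc, -c + bc, -a + ac + ad - cd, 0, 0, -a + ab + c - bc, a - c - ad + cd, ab - ac - bd + cd, 0, 0, -b + c + bd - cd, 0, a - ab - d + bd, b + d - bd, 0, 0, 0, 0, by linarith, by linarith, by linarith, by linarith, le_rfl, le_rfl, by linarith, by linarith, by linarith, le_rfl, le_rfl, by linarith, le_rfl, by linarith, by linarith, le_rfl, le_rfl, le_rfl, le_rfl, ?_⟩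
      refine ⟨by ring, by ring, by ring, by ring, by ring, by ring, by ring, by ring, by ring, by ring⟩
    ·
      refine ⟨-a + ad, -b - ab + ac + bc + bd - cd, -b + bc + bd - cd, -a + ac + ad - cd, 0, 0, -a + b + ab - bc - bd + cd, a - b - ad + bd, ab - ac - bd + cd, 0, 0, 0, b - c - bd + cd, a - ab - d + bd, c + d - cd, 0, 0, 0, 0, by linarith, by linarith, by linarith, by linarith, le_rfl, le_rfl, by linarith, by linarith, by linarith, le_rfl, le_rfl, le_rfl, by linarith, by linarith, by linarith, le_rfl, le_rfl, le_rfl, le_rfl, ?_⟩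
      refine ⟨by ring, by ring, by ring, by ring, by ring, by ring, by ring, by ring, by ring, by ring⟩
    ·
      refine ⟨-a + ad, -c + bc - bd + cd, ab - c - ac + bc - bd + cd, -a + ab + ad - bd, 0, 0, -a + c + ac - bc + bd - cd, a - c - ad + cd, 0, -ab + ac + bd - cd, 0, -b + c + bd - cd, 0, a - ac - d + cd, b + d - bd, 0, 0, 0, 0, by linarith, by linarith, by linarith, by linarith, le_rfl, le_rfl, by linarith, by linarith, le_rfl, by linarith, le_rfl, by linarith, le_rfl, by linarith, by linarith, le_rfl, le_rfl, le_rfl, le_rfl, ?_⟩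
      refine ⟨by ring, by ring, by ring, by ring, by ring, by ring, by ring, by ring, by ring, by ring⟩
    ·
      refine ⟨-a + ad, -b + bc, -b + ab - ac + bc, -a + ab + ad - bd, 0, 0, -a + b + ac - bc, a - b - ad + bd, 0, -ab + ac + bd - cd, 0, 0, b - c - bd + cd, a - ac - d + cd, c + d - cd, 0, 0, 0, 0, by linarith, by linarith, by linarith, by linarith, le_rfl, le_rfl, by linarith, by linarith, le_rfl, by linarith, le_rfl, le_rfl, by linarith, by linarith, by linarith, le_rfl, le_rfl, le_rfl, le_rfl, ?_⟩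
      refine ⟨by ring, by ring, by ring, by ring, by ring, by ring, by ring, by ring, by ring, by ring⟩
    ·
      rcases mn4 (a - bc - d - ad + bd + cd) (a - c - ad + cd) (a - b - ad + bd) (-a + ab + ac - bc) with ⟨m3_1, m3_2, m3_3⟩ | ⟨m3_0, m3_2, m3_3⟩ | ⟨m3_0, m3_1, m3_3⟩ | ⟨m3_0, m3_1, m3_2⟩
      ·
        refine ⟨-a + ad, -a + ac, -a + ab, -2 * a + ab + ac + d + ad - bd - cd, 0, 0, 0, a - bc - d - ad + bd + cd, a - ac - d + cd, a - ab - d + bd, 0, -b + bc + d - cd, -c + bc + d - bd, 0, b + c - bc, 0, 0, 0, 0, by linarith, by linarith, by linarith, by linarith, le_rfl, le_rfl, le_rfl, by linarith, by linarith, by linarith, le_rfl, by linarith, by linarith, le_rfl, by linarith, le_rfl, le_rfl, le_rfl, le_rfl, ?_⟩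
        refine ⟨by ring, by ring, by ring, by ring, by ring, by ring, by ring, by ring, by ring, by ring⟩
      ·
        refine ⟨-a + ad, -a + ac, -a + ab, -2 * a + ab + c + ac - bc + ad - cd, 0, 0, 0, a - c - ad + cd, a - c - ac + bc - bd + cd, a - ab - c + bc, 0, -b + c + bd - cd, 0, c - bc - d + bd, b + d - bd, 0, 0, 0, 0, by linarith, by linarith, by linarith, by linarith, le_rfl, le_rfl, le_rfl, by linarith, by linarith, by linarith, le_rfl, by linarith, le_rfl, by linarith, by linarith, le_rfl, le_rfl, le_rfl, le_rfl, ?_⟩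
        refine ⟨by ring, by ring, by ring, by ring, by ring, by ring, by ring, by ring, by ring, by ring⟩
      ·
        refine ⟨-a + ad, -a + ac, -a + ab, -2 * a + b + ab + ac - bc + ad - bd, 0, 0, 0, a - b - ad + bd, a - b - ac + bc, a - b - ab + bc + bd - cd, 0, 0, b - c - bd + cd, b - bc - d + cd, c + d - cd, 0, 0, 0, 0, by linarith, by linarith, by linarith, by linarith, le_rfl, le_rfl, le_rfl, by linarith, by linarith, by linarith, le_rfl, le_rfl, by linarith, by linarith, by linarith, le_rfl, le_rfl, le_rfl, le_rfl, ?_⟩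
        refine ⟨by ring, by ring, by ring, by ring, by ring, by ring, by ring, by ring, by ring, by ring⟩
      ·
        rcases mn2 (2 * a - b - ab - ac + bc - ad + bd) (c + d - cd) with m6_0 | m6_0
        ·
          refine ⟨-a + ad, -a + ac, -a + ab, 0, 0, 0, 0, -a + ab + ac - bc, -a + ab + ad - bd, -a + ac + ad - cd, 0, 2 * a - b - ab - ac + bc - ad + bd, 2 * a - ab - c - ac + bc - ad + cd, 2 * a - ab - ac - d - ad + bd + cd, -2 * a + b + ab + c + ac - bc + d + ad - bd - cd, 0, 0, 0, 0, by linarith, by linarith, by linarith, le_rfl, le_rfl, le_rfl, le_rfl, by linarith, by linarith, by linarith, le_rfl, by linarith, by linarith, by linarith, by linarith, le_rfl, le_rfl, le_rfl, le_rfl, ?_⟩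
          refine ⟨by ring, by ring, by ring, by ring, by ring, by ring, by ring, by ring, by ring, by ring⟩
        ·
          refine ⟨-a + ad, -a + ac, -a + ab, 0, 0, 0, 0, -a + ab + ac - bc, -a + ab + ad - bd, -a + ac + ad - cd, 0, c + d - cd, b + d - bd, b + c - bc, 0, 0, 0, 0, 2 * a - b - ab - c - ac + bc - d - ad + bd + cd, by linarith, by linarith, by linarith, le_rfl, le_rfl, le_rfl, le_rfl, by linarith, by linarith, by linarith, le_rfl, by linarith, by linarith, by linarith, le_rfl, le_rfl, le_rfl, le_rfl, by linarith, ?_⟩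
          refine ⟨by ring, by ring, by ring, by ring, by ring, by ring, by ring, by ring, by ring, by ring⟩
  ·
    refine ⟨-b + ab - c + ac - bc - ad + bd + cd, -c + ac - ad + cd, -b + ab - ad + bd, 0, -ab + c - ac + bc + ad - cd, b - ab - ac + bc + ad - bd, 0, 0, -b + ab, -c + ac, -a + ab + ac - bc, 0, 0, b - ab + c - ac - d + ad, a + d - ad, 0, 0, 0, 0, by linarith, by linarith, by linarith, le_rfl, by linarith, by linarith, le_rfl, le_rfl, by linarith, by linarith, by linarith, le_rfl, le_rfl, by linarith, by linarith, le_rfl, le_rfl, le_rfl, le_rfl, ?_⟩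
    refine ⟨by ring, by ring, by ring, by ring, by ring, by ring, by ring, by ring, by ring, by ring⟩
  ·
    refine ⟨-a + ab - c - ac + bc + ad - bd + cd, -c + bc - bd + cd, 0, -a + ab + ad - bd, -ab + c + ac - bc + bd - cd, 0, -a + ab, a - ab + ac - bc - ad + bd, 0, -c + bc, 0, -b + ab - ac + bc, 0, a - ab + c - bc - d + bd, b + d - bd, 0, 0, 0, 0, by linarith, by linarith, le_rfl, by linarith, by linarith, le_rfl, by linarith, by linarith, le_rfl, by linarith, le_rfl, by linarith, le_rfl, by linarith, by linarith, le_rfl, le_rfl, le_rfl, le_rfl, ?_⟩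
    refine ⟨by ring, by ring, by ring, by ring, by ring, by ring, by ring, by ring, by ring, by ring⟩
  ·
    refine ⟨-a - b - ab + ac + bc + ad + bd - cd, 0, -b + bc + bd - cd, -a + ac + ad - cd, 0, b + ab - ac - bc - bd + cd, -a + ac, a + ab - ac - bc - ad + cd, -b + bc, 0, 0, 0, -ab - c + ac + bc, a + b - ac - bc - d + cd, c + d - cd, 0, 0, 0, 0, by linarith, le_rfl, by linarith, by linarith, le_rfl, by linarith, by linarith, by linarith, by linarith, le_rfl, le_rfl, le_rfl, by linarith, by linarith, by linarith, le_rfl, le_rfl, le_rfl, le_rfl, ?_⟩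
    refine ⟨by ring, by ring, by ring, by ring, by ring, by ring, by ring, by ring, by ring, by ring⟩

end Pool.Agent.MP7216ee
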