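import Mathlib

/-!
Definitions for marginal scenarios, polymatroids, entropic polymatroids and
Shannon-completeness.
-/

namespace Pool.Agent.MP7216ee

open MeasureTheory

/-- Shannon entropy (base 2) of a map `X` on a probability space, with values in `[0,∞]`:
the sum over all values `x` of `P(X = x) log₂ (1 / P(X = x))`. -/
noncomputable def entropy {Ω β : Type*} [MeasurableSpace Ω] (μ : Measure Ω) (X : Ω → β) :
    ENNReal :=
  ∑' x : β, ENNReal.ofReal (Real.negMulLog (μ.real (X ⁻¹' {x})) / Real.log 2)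

/-- The joint random variable `A_S = (A_i)_{i ∈ S}`. -/
def joint {n : ℕ} {Ω : Type*} (A : Fin n → Ω → ℕ) (S : Finset (Fin n)) : Ω → (S → ℕ) :=
  fun ω i => A i ω

/-- Polymatroids on `[n]`. -/
structure IsPolymatroid {n : ℕ} (f : Finset (Fin n) → ℝ) : Prop where
  empty : f ∅ = 0
  nonneg : ∀ S, 0 ≤ f S
  mono : ∀ S T, S ⊆ T → f S ≤ f T
  submod : ∀ S T, f (S ∩ T) + f (S ∪ T) ≤ f S + f T

/-- `f` is the entropy function of discrete random variables `A_1, …, A_n` of finite entropy
(with values labelled by natural numbers, on an arbitrary probability space). -/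
def IsEntropic {n : ℕ} (f : Finset (Fin n) → ℝ) : Prop :=
  ∃ (Ω : Type) (_ : MeasurableSpace Ω) (μ : Measure Ω) (A : Fin n → Ω → ℕ),
    IsProbabilityMeasure μ ∧ (∀ i, Measurable (A i)) ∧
    (∀ i, entropy μ (A i) ≠ ⊤) ∧ ∀ S, f S = (entropy μ (joint A S)).toReal

/-- The inequality `∑_{S ∈ M} c_S h(S) ≥ 0` is entropic on `M`. -/
def EntropicOn {n : ℕ} (M : Finset (Finset (Fin n))) (c : Finset (Fin n) → ℝ) : Prop :=
  ∀ f : Finset (Fin n) → ℝ, IsEntropic f → 0 ≤ ∑ S ∈ M, c S * f S

/-- The inequality `∑_{S ∈ M} c_S h(S) ≥ 0` is Shannon-type. -/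
def ShannonTypeOn {n : ℕ} (M : Finset (Finset (Fin n))) (c : Finset (Fin n) → ℝ) : Prop :=
  ∀ f : Finset (Fin n) → ℝ, IsPolymatroid f → 0 ≤ ∑ S ∈ M, c S * f S

/-- `M` is Shannon-complete: every entropic inequality on `M` is Shannon-type. -/
def ShannonComplete {n : ℕ} (M : Finset (Finset (Fin n))) : Prop :=
  ∀ c : Finset (Fin n) → ℝ, EntropicOn M c → ShannonTypeOn M c

/-- The complete graph scenario `K_n`: all subsets of `[n]` with at most two elements. -/
def completeGraph (n : ℕ) : Finset (Finset (Fin n)) :=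
  Finset.univ.filter fun S => S.card ≤ 2

end Pool.Agent.MP7216ee
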