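import Mathlib

/-!
Entropy of maps on a countable weighted index type: basic Shannon inequalities,
with values in the extended nonnegative reals, so no summability side conditions occur.
-/

namespace Pool.Agent.MP7216ee

open scoped ENNReal

variable {I : Type*} {α β γ : Type*}

/-- total weight of the fibre of `X` over `a` -/
noncomputable def mass (p : I → ℝ≥0∞) (X : I → α) (a : α) : ℝ≥0∞ :=
  ∑' i, (X ⁻¹' {a}).indicator p i

/-- surprisal (natural logarithm) -/
noncomputable def sur (t : ℝ≥0∞) : ℝ≥0∞ := ENNReal.ofReal (- Real.log t.toReal)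

/-- entropy (natural logarithm) of the map `X` under the weights `p` -/
noncomputable def ent (p : I → ℝ≥0∞) (X : I → α) : ℝ≥0∞ :=
  ∑' i, p i * sur (mass p X (X i))

theorem tsum_comp (p : I → ℝ≥0∞) (X : I → α) (G : α → ℝ≥0∞) :
    ∑' i, p i * G (X i) = ∑' a, mass p X a * G a := by
  classical
  have h1 : ∀ a, mass p X a * G a = ∑' i, (X ⁻¹' {a}).indicator p i * G a := by
    intro a
    rw [mass, ENNReal.tsum_mul_right]
  simp_rw [h1]
  rw [ENNReal.tsum_comm]
  congr 1
  ext i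
  rw [tsum_eq_single (X i)]
  · simp
  · intro a ha
    have : i ∉ X ⁻¹' {a} := by
      simp only [Set.mem_preimage, Set.mem_singleton_iff]
      exact fun h => ha h.symm
    simp [Set.indicator_of_notMem this]

theorem tsum_mass (p : I → ℝ≥0∞) (X : I → α) : ∑' a, mass p X a = ∑' i, p i := by
  have := tsum_comp p X (fun _ => 1)
  simpa using this.symm

theorem le_mass (p : I → ℝ≥0∞) (X : I → α) (i : I) : p i ≤ mass p X (X i) := by
  unfold mass
  refine le_trans ?_ (ENNReal.le_tsum i)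
  simp

theorem mass_ne_zero {p : I → ℝ≥0∞} (X : I → α) {i : I} (hi : p i ≠ 0) :
    mass p X (X i) ≠ 0 := fun h0 => hi (le_antisymm (h0 ▸ le_mass p X i) zero_le)

theorem mass_le_total (p : I → ℝ≥0∞) (X : I → α) (a : α) : mass p X a ≤ ∑' i, p i := by
  unfold mass
  exact ENNReal.tsum_le_tsum fun i => Set.indicator_le_self _ _ i

theorem mass_le_mass (p : I → ℝ≥0∞) (X : I → α) (Y : I → β) (i : I)
    (h : ∀ j, X j = X i → Y j = Y i) : mass p X (X i) ≤ mass p Y (Y i) := by
  unfold mass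
  refine ENNReal.tsum_le_tsum fun j => ?_
  by_cases hj : X j = X i
  · rw [Set.indicator_of_mem (by simpa using hj), Set.indicator_of_mem (by simpa using h j hj)]
  · rw [Set.indicator_of_notMem (by simpa using hj)]
    exact zero_le

theorem sur_anti {s t : ℝ≥0∞} (hs : s ≠ 0) (ht : t ≠ ⊤) (h : s ≤ t) : sur t ≤ sur s := by
  unfold sur
  apply ENNReal.ofReal_le_ofReal
  have hs' : s ≠ ⊤ := fun h' => ht (top_le_iff.mp (h' ▸ h))
  have h1 : 0 < s.toReal := ENNReal.toReal_pos hs hs'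
  have h2 : s.toReal ≤ t.toReal := ENNReal.toReal_mono ht h
  have := Real.log_le_log h1 h2
  linarith

theorem ent_mono {p : I → ℝ≥0∞} (hp : ∑' i, p i = 1) (X : I → α) (Y : I → β)
    (h : ∀ i j, X i = X j → Y i = Y j) : ent p Y ≤ ent p X := by
  unfold ent
  refine ENNReal.tsum_le_tsum fun i => ?_
  by_cases hi : p i = 0
  · simp [hi]
  · gcongr
    apply sur_anti
    · intro h0
      exact hi (le_antisymm (h0 ▸ le_mass p X i) zero_le)
    · have := mass_le_total p Y (Y i)
      rw [hp] at this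
      exact ne_top_of_le_ne_top ENNReal.one_ne_top this
    · exact mass_le_mass p X Y i (fun j hj => h j i hj)

theorem ent_congr {p : I → ℝ≥0∞} (hp : ∑' i, p i = 1) (X : I → α) (Y : I → β)
    (h : ∀ i j, X i = X j ↔ Y i = Y j) : ent p Y = ent p X :=
  le_antisymm (ent_mono hp X Y fun i j => (h i j).1) (ent_mono hp Y X fun i j => (h i j).2)

/-- pointwise inequality behind submodularity -/
theorem sur_key {m1 m2 m3 m4 : ℝ≥0∞} (h1 : m1 ≠ 0) (h2 : m2 ≠ 0) (h3 : m3 ≠ 0) (h4 : m4 ≠ 0)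
    (t1 : m1 ≤ 1) (t2 : m2 ≤ 1) (t3 : m3 ≤ 1) (t4 : m4 ≤ 1) :
    sur m1 + sur m2 + 1 ≤ sur m3 + sur m4 + m3 * m4 / (m1 * m2) := by
  have f1 : m1 ≠ ⊤ := ne_top_of_le_ne_top ENNReal.one_ne_top t1
  have f2 : m2 ≠ ⊤ := ne_top_of_le_ne_top ENNReal.one_ne_top t2
  have f3 : m3 ≠ ⊤ := ne_top_of_le_ne_top ENNReal.one_ne_top t3
  have f4 : m4 ≠ ⊤ := ne_top_of_le_ne_top ENNReal.one_ne_top t4
  lift m1 to NNReal using f1
  lift m2 to NNReal using f2
  lift m3 to NNReal using f3
  lift m4 to NNReal using f4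
  have g1 : (0:ℝ) < m1 := by
    have : m1 ≠ 0 := by simpa using h1
    positivity
  have g2 : (0:ℝ) < m2 := by
    have : m2 ≠ 0 := by simpa using h2
    positivity
  have g3 : (0:ℝ) < m3 := by
    have : m3 ≠ 0 := by simpa using h3
    positivity
  have g4 : (0:ℝ) < m4 := by
    have : m4 ≠ 0 := by simpa using h4
    positivity
  have u1 : (m1:ℝ) ≤ 1 := by exact_mod_cast t1
  have u2 : (m2:ℝ) ≤ 1 := by exact_mod_cast t2
  have u3 : (m3:ℝ) ≤ 1 := by exact_mod_cast t3
  have u4 : (m4:ℝ) ≤ 1 := by exact_mod_cast t4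
  have l1 : 0 ≤ - Real.log m1 := by have := Real.log_nonpos g1.le u1; linarith
  have l2 : 0 ≤ - Real.log m2 := by have := Real.log_nonpos g2.le u2; linarith
  have l3 : 0 ≤ - Real.log m3 := by have := Real.log_nonpos g3.le u3; linarith
  have l4 : 0 ≤ - Real.log m4 := by have := Real.log_nonpos g4.le u4; linarith
  have e : ((m3 : ℝ≥0∞) * m4 / (m1 * m2)) = ENNReal.ofReal ((m3:ℝ) * m4 / (m1 * m2)) := by
    rw [ENNReal.ofReal_div_of_pos (by positivity), ENNReal.ofReal_mul g3.le,
      ENNReal.ofReal_mul g1.le]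
    simp
  rw [e]
  unfold sur
  rw [← ENNReal.ofReal_one, ← ENNReal.ofReal_add (by simpa using l1) (by simpa using l2),
    ← ENNReal.ofReal_add (by simpa using add_nonneg l1 l2) (by norm_num),
    ← ENNReal.ofReal_add (by simpa using l3) (by simpa using l4),
    ← ENNReal.ofReal_add (by simpa using add_nonneg l3 l4) (by positivity)]
  apply ENNReal.ofReal_le_ofReal
  simp only [ENNReal.coe_toReal]
  have key := Real.log_le_sub_one_of_pos (x := (m3:ℝ) * m4 / (m1 * m2)) (by positivity)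
  rw [Real.log_div (by positivity) (by positivity), Real.log_mul g3.ne' g4.ne',
    Real.log_mul g1.ne' g2.ne'] at key
  linarith

theorem sum_mass_fst (p : I → ℝ≥0∞) (X : I → α) (Z : I → γ) (z : γ) :
    ∑' x, mass p (fun i => (X i, Z i)) (x, z) = mass p Z z := by
  classical
  unfold mass
  rw [ENNReal.tsum_comm]
  congr 1
  ext i
  rw [tsum_eq_single (X i)]
  · by_cases h : Z i = z
    · rw [Set.indicator_of_mem (by simp [h]), Set.indicator_of_mem (by simp [h])]
    · rw [Set.indicator_of_notMem (by simp [h]), Set.indicator_of_notMem (by simp [h])]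
  · intro a ha
    apply Set.indicator_of_notMem
    simp only [Set.mem_preimage, Set.mem_singleton_iff, Prod.mk.injEq, not_and]
    intro h
    exact absurd h.symm ha

theorem ent_submod {p : I → ℝ≥0∞} (hp : ∑' i, p i = 1) (X : I → α) (Y : I → β) (Z : I → γ) :
    ent p (fun i => (X i, Y i, Z i)) + ent p Z ≤
      ent p (fun i => (X i, Z i)) + ent p (fun i => (Y i, Z i)) := by
  set m1 : α × β × γ → ℝ≥0∞ := mass p (fun i => (X i, Y i, Z i)) with hm1
  set m2 : γ → ℝ≥0∞ := mass p Z with hm2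
  set m3 : α × γ → ℝ≥0∞ := mass p (fun i => (X i, Z i)) with hm3
  set m4 : β × γ → ℝ≥0∞ := mass p (fun i => (Y i, Z i)) with hm4
  -- the ratio term
  set G : α × β × γ → ℝ≥0∞ := fun w => m3 (w.1, w.2.2) * m4 w.2 / (m1 w * m2 w.2.2) with hG
  have hpt : ∀ i, p i * (sur (m1 (X i, Y i, Z i)) + sur (m2 (Z i)) + 1) ≤
      p i * (sur (m3 (X i, Z i)) + sur (m4 (Y i, Z i)) + G (X i, Y i, Z i)) := by
    intro i
    by_cases hi : p i = 0
    · simp [hi]
    · exact mul_le_mul' le_rfl (sur_key (mass_ne_zero (fun i => (X i, Y i, Z i)) hi)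
        (mass_ne_zero Z hi)
        (mass_ne_zero (fun i => (X i, Z i)) hi) (mass_ne_zero (fun i => (Y i, Z i)) hi)
        ((mass_le_total p _ _).trans hp.le) ((mass_le_total p _ _).trans hp.le)
        ((mass_le_total p _ _).trans hp.le) ((mass_le_total p _ _).trans hp.le))
  have hsum := ENNReal.tsum_le_tsum hpt
  have hratio : ∑' i, p i * G (X i, Y i, Z i) ≤ 1 := by
    rw [tsum_comp p (fun i => (X i, Y i, Z i)) G]
    have hb : ∀ w : α × β × γ, mass p (fun i => (X i, Y i, Z i)) w * G w ≤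
        m3 (w.1, w.2.2) * m4 w.2 / m2 w.2.2 := by
      intro w
      rw [hG, ← hm1]
      simp only
      by_cases h0 : m1 w = 0
      · simp [h0]
      · have ht : m1 w ≠ ⊤ := by
          refine ne_top_of_le_ne_top ENNReal.one_ne_top ?_
          rw [← hp]; exact mass_le_total p _ w
        rw [ENNReal.div_eq_inv_mul, ENNReal.mul_inv (Or.inl h0) (Or.inl ht)]
        have : m1 w * ((m1 w)⁻¹ * (m2 w.2.2)⁻¹ * (m3 (w.1, w.2.2) * m4 w.2)) =
            (m1 w * (m1 w)⁻¹) * ((m2 w.2.2)⁻¹ * (m3 (w.1, w.2.2) * m4 w.2)) := by ring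
        rw [this, ENNReal.mul_inv_cancel h0 ht, one_mul, ENNReal.div_eq_inv_mul]
    refine (ENNReal.tsum_le_tsum hb).trans ?_
    rw [ENNReal.tsum_prod']
    simp only
    have h2 : ∀ x : α, ∑' b : β × γ, m3 (x, b.2) * m4 b / m2 b.2 =
        ∑' z : γ, ∑' y : β, m3 (x, z) * m4 (y, z) / m2 z := by
      intro x
      rw [ENNReal.tsum_prod']
      simp only
      rw [ENNReal.tsum_comm]
    simp_rw [h2]
    rw [ENNReal.tsum_comm]
    have h3 : ∀ z : γ, ∑' x : α, ∑' y : β, m3 (x, z) * m4 (y, z) / m2 z ≤ m2 z := by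
      intro z
      have : ∀ x : α, ∑' y : β, m3 (x, z) * m4 (y, z) / m2 z = m3 (x, z) * (m2 z / m2 z) := by
        intro x
        have h5 : ∀ y : β, m3 (x, z) * m4 (y, z) / m2 z = m3 (x, z) * (m4 (y, z) * (m2 z)⁻¹) := by
          intro y; rw [ENNReal.div_eq_inv_mul]; ring
        simp_rw [h5]
        rw [ENNReal.tsum_mul_left, ENNReal.tsum_mul_right, hm4, sum_mass_fst p Y Z z,
          ENNReal.div_eq_inv_mul, mul_comm (m2 z)⁻¹]
      simp_rw [this]
      rw [ENNReal.tsum_mul_right, hm3, sum_mass_fst p X Z z]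
      calc m2 z * (m2 z / m2 z) ≤ m2 z * 1 := by gcongr; exact ENNReal.div_self_le_one
        _ = m2 z := mul_one _
    calc _ ≤ ∑' z, m2 z := ENNReal.tsum_le_tsum h3
      _ = 1 := by rw [hm2, tsum_mass, hp]
  simp_rw [mul_add] at hsum
  rw [ENNReal.tsum_add, ENNReal.tsum_add, ENNReal.tsum_add, ENNReal.tsum_add] at hsum
  simp only [mul_one] at hsum
  rw [hp] at hsum
  have hfin : ent p (fun i => (X i, Y i, Z i)) + ent p Z + 1 ≤
      ent p (fun i => (X i, Z i)) + ent p (fun i => (Y i, Z i)) + 1 := by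
    refine le_trans hsum ?_
    gcongr
    · exact le_rfl
    · exact le_rfl
  exact (ENNReal.add_le_add_iff_right ENNReal.one_ne_top).1 hfin

end Pool.Agent.MP7216ee
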