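import Pool.Agent.Lib.MP_7216ee_lc.ZY

/-!
The complete graph scenario on five indices is not Shannon-complete, and completeness is
inherited by smaller complete graphs.
-/

namespace Pool.Agent.MP7216ee

open scoped ENNReal
open MeasureTheory

/-- the rank function on four indices that violates the Zhang-Yeung inequality -/
def vam (S : Finset (Fin 4)) : ℕ :=
  if S = {2, 3} then 4 else if S.card = 0 then 0 else if S.card = 1 then 2 else
  if S.card = 2 then 3 else 4

theorem vam_mono : ∀ S T : Finset (Fin 4), S ⊆ T → vam S ≤ vam T := by decide +kernel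

theorem vam_submod : ∀ S T : Finset (Fin 4), vam (S ∩ T) + vam (S ∪ T) ≤ vam S + vam T := by
  decide +kernel

/-- the fifth index stands for the pair `{0, 1}` -/
def phi (i : Fin 5) : Finset (Fin 4) :=
  if i = 0 then {0} else if i = 1 then {1} else if i = 2 then {2} else if i = 3 then {3} else
    {0, 1}

/-- the violating polymatroid on five indices -/
def vamFive (S : Finset (Fin 5)) : ℝ := (vam (S.biUnion phi) : ℝ)

theorem vamFive_isPolymatroid : IsPolymatroid vamFive where
  empty := by
    unfold vamFive
    rw [Finset.biUnion_empty]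
    have : vam ∅ = 0 := by decide
    rw [this]; simp
  nonneg := fun S => by unfold vamFive; positivity
  mono := by
    intro S T h
    unfold vamFive
    exact_mod_cast vam_mono _ _ (Finset.biUnion_subset_biUnion_of_subset_left _ h)
  submod := by
    intro S T
    unfold vamFive
    have h1 : (S ∩ T).biUnion phi ⊆ S.biUnion phi ∩ T.biUnion phi :=
      Finset.subset_inter
        (Finset.biUnion_subset_biUnion_of_subset_left _ Finset.inter_subset_left)
        (Finset.biUnion_subset_biUnion_of_subset_left _ Finset.inter_subset_right)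
    have h2 : (S ∪ T).biUnion phi = S.biUnion phi ∪ T.biUnion phi := Finset.union_biUnion
    have h3 := vam_submod (S.biUnion phi) (T.biUnion phi)
    have h4 := vam_mono _ _ h1
    rw [h2]
    have : vam ((S ∩ T).biUnion phi) + vam (S.biUnion phi ∪ T.biUnion phi) ≤
        vam (S.biUnion phi) + vam (T.biUnion phi) := by omega
    exact_mod_cast this

/-- the list of coefficients of the five variable inequality -/
def coef5 (S : Finset (Fin 5)) : ℝ :=
  if S = {0} then -2 else if S = {1} then -2 else if S = {2} then -1 else if S = {4} then -5 else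
  if S = {0, 1} then -2 else if S = {0, 2} then 3 else if S = {1, 2} then 3 else
  if S = {0, 3} then 1 else if S = {1, 3} then 1 else if S = {2, 3} then -1 else
  if S = {2, 4} then -4 else if S = {3, 4} then -1 else if S = {0, 4} then 5 else
  if S = {1, 4} then 5 else 0

theorem completeGraph_five : completeGraph 5 =
    ({{0}, {1}, {2}, {4}, {0, 1}, {0, 2}, {1, 2}, {0, 3}, {1, 3}, {2, 3}, {2, 4}, {3, 4},
      {0, 4}, {1, 4}, ∅, {3}} : Finset (Finset (Fin 5))) := by
  decide +kernel

theorem sum_coef5 (f : Finset (Fin 5) → ℝ) :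
    ∑ S ∈ completeGraph 5, coef5 S * f S =
      -2 * f {0} - 2 * f {1} - f {2} - 5 * f {4} - 2 * f {0, 1} + 3 * f {0, 2}
      + 3 * f {1, 2} + f {0, 3} + f {1, 3} - f {2, 3} - 4 * f {2, 4} - f {3, 4}
      + 5 * f {0, 4} + 5 * f {1, 4} := by
  rw [completeGraph_five]
  repeat rw [Finset.sum_insert (by decide)]
  rw [Finset.sum_singleton]
  have t : ∀ (S T : Finset (Fin 5)) (a b : ℝ), S ≠ T → (if S = T then a else b) = b :=
    fun S T a b h => if_neg h
  have e0 : coef5 {0} = -2 := by unfold coef5; rw [if_pos rfl]
  have e1 : coef5 {1} = -2 := by unfold coef5; rw [if_neg (by decide), if_pos rfl]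
  have e2 : coef5 {2} = -1 := by
    unfold coef5; iterate 2 rw [if_neg (by decide)]
    rw [if_pos rfl]
  have e3 : coef5 {4} = -5 := by
    unfold coef5; iterate 3 rw [if_neg (by decide)]
    rw [if_pos rfl]
  have e4 : coef5 {0, 1} = -2 := by
    unfold coef5; iterate 4 rw [if_neg (by decide)]
    rw [if_pos rfl]
  have e5 : coef5 {0, 2} = 3 := by
    unfold coef5; iterate 5 rw [if_neg (by decide)]
    rw [if_pos rfl]
  have e6 : coef5 {1, 2} = 3 := by
    unfold coef5; iterate 6 rw [if_neg (by decide)]
    rw [if_pos rfl]
  have e7 : coef5 {0, 3} = 1 := by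
    unfold coef5; iterate 7 rw [if_neg (by decide)]
    rw [if_pos rfl]
  have e8 : coef5 {1, 3} = 1 := by
    unfold coef5; iterate 8 rw [if_neg (by decide)]
    rw [if_pos rfl]
  have e9 : coef5 {2, 3} = -1 := by
    unfold coef5; iterate 9 rw [if_neg (by decide)]
    rw [if_pos rfl]
  have e10 : coef5 {2, 4} = -4 := by
    unfold coef5; iterate 10 rw [if_neg (by decide)]
    rw [if_pos rfl]
  have e11 : coef5 {3, 4} = -1 := by
    unfold coef5; iterate 11 rw [if_neg (by decide)]
    rw [if_pos rfl]
  have e12 : coef5 {0, 4} = 5 := by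
    unfold coef5; iterate 12 rw [if_neg (by decide)]
    rw [if_pos rfl]
  have e13 : coef5 {1, 4} = 5 := by
    unfold coef5; iterate 13 rw [if_neg (by decide)]
    rw [if_pos rfl]
  have e14 : coef5 ∅ = 0 := by
    unfold coef5; iterate 14 rw [if_neg (by decide)]
  have e15 : coef5 {3} = 0 := by
    unfold coef5; iterate 14 rw [if_neg (by decide)]
  rw [e0, e1, e2, e3, e4, e5, e6, e7, e8, e9, e10, e11, e12, e13, e14, e15]
  ring

theorem not_completeGraph_five : ¬ ShannonComplete (completeGraph 5) := by
  intro h
  have h1 : EntropicOn (completeGraph 5) coef5 := by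
    intro f hf
    rw [sum_coef5]
    exact fiveIneq f hf
  have h2 := h coef5 h1 vamFive vamFive_isPolymatroid
  rw [sum_coef5] at h2
  have v : ∀ (S : Finset (Fin 5)) (k : ℕ), vam (S.biUnion phi) = k → vamFive S = k := by
    rintro S k rfl
    rfl
  rw [v {0} 2 (by decide), v {1} 2 (by decide), v {2} 2 (by decide), v {4} 3 (by decide),
    v {0, 1} 3 (by decide), v {0, 2} 3 (by decide), v {1, 2} 3 (by decide),
    v {0, 3} 3 (by decide), v {1, 3} 3 (by decide), v {2, 3} 4 (by decide),
    v {2, 4} 4 (by decide), v {3, 4} 4 (by decide), v {0, 4} 3 (by decide),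
    v {1, 4} 3 (by decide)] at h2
  norm_num at h2

theorem entropy_equiv {Ω β γ : Type*} [MeasurableSpace Ω] (μ : Measure Ω) (Z : Ω → β)
    (e : β ≃ γ) : entropy μ (fun ω => e (Z ω)) = entropy μ Z := by
  unfold entropy
  rw [← Equiv.tsum_eq e]
  congr 1
  ext b
  congr 5
  ext ω
  simp

theorem IsEntropic.comap {m n : ℕ} (e : Fin m ↪ Fin n) {g : Finset (Fin n) → ℝ}
    (hg : IsEntropic g) : IsEntropic (fun T : Finset (Fin m) => g (T.map e)) := by
  obtain ⟨Ω, _, μ, A, hμ, hA, hfin, hS⟩ := hg
  refine ⟨Ω, _, μ, fun k => A (e k), hμ, fun i => hA _, fun i => hfin _, ?_⟩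
  intro T
  simp only
  rw [hS]
  congr 1
  let ee : T ≃ (T.map e : Finset (Fin n)) :=
    { toFun := fun k => ⟨e k, by simp⟩
      invFun := fun k => ⟨(Finset.mem_map.1 k.2).choose, (Finset.mem_map.1 k.2).choose_spec.1⟩
      left_inv := by
        intro k
        apply Subtype.ext
        apply e.injective
        exact (Finset.mem_map.1 (⟨e k, by simp⟩ : (T.map e : Finset (Fin n))).2).choose_spec.2
      right_inv := by
        intro k
        apply Subtype.ext
        exact (Finset.mem_map.1 k.2).choose_spec.2 }
  have h := entropy_equiv μ (joint (fun k => A (e k)) T) (Equiv.arrowCongr ee (Equiv.refl ℕ))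
  rw [← h]
  congr 1
  ext ω k
  simp only [joint, Equiv.arrowCongr_apply, Equiv.coe_refl, Function.comp_apply, id]
  congr 1
  have := ee.right_inv k
  exact (congrArg Subtype.val this).symm

theorem completeGraph_mono {m n : ℕ} (hmn : m ≤ n) (h : ShannonComplete (completeGraph n)) :
    ShannonComplete (completeGraph m) := by
  classical
  intro c hc f hf
  set e : Fin m ↪ Fin n := Fin.castLEEmb hmn with he
  set pre : Finset (Fin n) → Finset (Fin m) := fun S => Finset.univ.filter (fun k => e k ∈ S)
    with hpre
  have hpm : ∀ T, pre (T.map e) = T := by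
    intro T
    ext k
    simp [hpre]
  set c' : Finset (Fin n) → ℝ := fun S => if (pre S).map e = S then c (pre S) else 0 with hc'
  have key : ∀ g : Finset (Fin n) → ℝ, ∑ S ∈ completeGraph n, c' S * g S =
      ∑ T ∈ completeGraph m, c T * g (T.map e) := by
    intro g
    symm
    have h1 : ∑ T ∈ completeGraph m, c T * g (T.map e) =
        ∑ S ∈ (completeGraph m).map (Finset.mapEmbedding e).toEmbedding, c' S * g S := by
      rw [Finset.sum_map]
      apply Finset.sum_congr rfl
      intro T _
      have : (Finset.mapEmbedding e).toEmbedding T = T.map e := rfl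
      rw [this, hc']
      simp only [hpm, if_true]
    rw [h1]
    apply Finset.sum_subset
    · intro S hS
      rw [Finset.mem_map] at hS
      obtain ⟨T, hT, rfl⟩ := hS
      have : (Finset.mapEmbedding e).toEmbedding T = T.map e := rfl
      rw [this]
      simp only [completeGraph, Finset.mem_filter, Finset.mem_univ, true_and,
        Finset.card_map] at hT ⊢
      exact hT
    · intro S hS hS2
      have : ¬ (pre S).map e = S := by
        intro h3
        apply hS2
        rw [Finset.mem_map]
        refine ⟨pre S, ?_, h3⟩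
        simp only [completeGraph, Finset.mem_filter, Finset.mem_univ, true_and] at hS ⊢
        rw [← Finset.card_map e, h3]
        exact hS
      rw [hc']
      simp [this]
  have h1 : EntropicOn (completeGraph n) c' := by
    intro g hg
    rw [key]
    exact hc _ (hg.comap e)
  have hpoly : IsPolymatroid (fun S => f (pre S)) := by
    refine ⟨?_, fun S => hf.nonneg _, ?_, ?_⟩
    · have : pre ∅ = ∅ := by simp [hpre]
      simp only [this]
      exact hf.empty
    · intro S T hST
      apply hf.mono
      intro k
      simp only [hpre, Finset.mem_filter, Finset.mem_univ, true_and]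
      exact fun hk => hST hk
    · intro S T
      have e1 : pre (S ∩ T) = pre S ∩ pre T := by ext k; simp [hpre]
      have e2 : pre (S ∪ T) = pre S ∪ pre T := by ext k; simp [hpre]
      simp only [e1, e2]
      exact hf.submod _ _
  have h2 := h c' h1 _ hpoly
  rw [key] at h2
  simpa only [hpm] using h2

end Pool.Agent.MP7216ee
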