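import Pool.Agent.Lib.MP_7216ee_lc.ZY
import Pool.Agent.Lib.MP_7216ee_lc.Decomp

/-!
The complete graph scenario on four indices is Shannon-complete.
-/

namespace Pool.Agent.MP7216ee

open scoped ENNReal
open MeasureTheory

theorem isEntropic_of_uniform {n : ℕ} (I : Type) [Fintype I] [Nonempty I] (X : Fin n → I → ℕ)
    (r : Finset (Fin n) → ℕ)
    (hr : ∀ S i, (Finset.univ.filter (fun j => ∀ k ∈ S, X k j = X k i)).card * 2 ^ (r S) =
      Fintype.card I) : IsEntropic (fun S => (r S : ℝ)) := by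
  classical
  let _ : MeasurableSpace I := ⊤
  have hl : 0 < Real.log 2 := Real.log_pos (by norm_num)
  set P : PMF I := PMF.uniformOfFintype I with hP
  set p : I → ℝ≥0∞ := fun i => P i with hp
  have hp1 : ∑' i, p i = 1 := P.tsum_coe
  have hpm : ∀ i, p i = (Fintype.card I : ℝ≥0∞)⁻¹ := by
    intro i
    simp [hp, hP, PMF.uniformOfFintype_apply]
  have hmeas : ∀ {β : Type} (Z : I → β) (b : β), P.toMeasure (Z ⁻¹' {b}) = mass p Z b := by
    intro β Z b
    rw [PMF.toMeasure_apply _ (MeasurableSpace.measurableSet_top)]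
    rfl
  have hE : ∀ {β : Type} (Z : I → β) (m : ℕ),
      (∀ i, (Finset.univ.filter (fun j => Z j = Z i)).card * 2 ^ m = Fintype.card I) →
      entropy P.toMeasure Z = (m : ℝ≥0∞) := by
    intro β Z m hZ
    rw [entropy_eq_ent P.toMeasure Z p Z (hmeas Z)]
    have hs : ∀ i, sur (mass p Z (Z i)) = ENNReal.ofReal (m * Real.log 2) := by
      intro i
      have h1 : mass p Z (Z i) =
          ((Finset.univ.filter (fun j => Z j = Z i)).card : ℝ≥0∞) * (Fintype.card I : ℝ≥0∞)⁻¹ := by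
        unfold mass
        rw [tsum_fintype]
        have : ∀ j, (Z ⁻¹' {Z i}).indicator p j =
            if Z j = Z i then (Fintype.card I : ℝ≥0∞)⁻¹ else 0 := by
          intro j
          rw [Set.indicator_apply]
          simp only [Set.mem_preimage, Set.mem_singleton_iff, hpm]
        simp_rw [this]
        rw [Finset.sum_ite, Finset.sum_const_zero, add_zero, Finset.sum_const, nsmul_eq_mul]
      have h2 := hZ i
      set k := (Finset.univ.filter (fun j => Z j = Z i)).card with hk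
      have hk0 : k ≠ 0 := by
        intro h0
        rw [h0, zero_mul] at h2
        exact Fintype.card_ne_zero h2.symm
      rw [h1, ← h2]
      unfold sur
      have h3 : (((k : ℝ≥0∞) * (((k * 2 ^ m : ℕ) : ℝ≥0∞))⁻¹)).toReal = ((2:ℝ) ^ m)⁻¹ := by
        rw [ENNReal.toReal_mul, ENNReal.toReal_inv, ENNReal.toReal_natCast,
          ENNReal.toReal_natCast]
        push_cast
        have : (k : ℝ) ≠ 0 := by exact_mod_cast hk0
        field_simp
      rw [h3, Real.log_inv, Real.log_pow, neg_neg]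
    unfold ent
    simp_rw [hs]
    rw [ENNReal.tsum_mul_right, hp1, one_mul,
      ENNReal.ofReal_mul (by positivity), mul_div_assoc,
      ENNReal.div_self (by simpa using hl) ENNReal.ofReal_ne_top, mul_one]
    simp
  refine ⟨I, ⊤, P.toMeasure, X, inferInstance, fun i => measurable_from_top, ?_, ?_⟩
  · intro k
    rw [hE (X k) (r {k})]
    · exact ENNReal.natCast_ne_top _
    · intro i
      rw [← hr {k} i]
      congr 2
      ext j
      simp
  · intro S
    rw [hE (joint X S) (r S)]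
    · simp
    · intro i
      rw [← hr S i]
      congr 2
      ext j
      simp only [Finset.mem_filter, Finset.mem_univ, true_and]
      exact jt_eq_iff X S j i

theorem completeGraph_four : completeGraph 4 =
    ({∅, {0}, {1}, {0, 1}, {2}, {0, 2}, {1, 2}, {3}, {0, 3}, {1, 3}, {2, 3}} : Finset (Finset (Fin 4))) := by
  decide +kernel

theorem sum_completeGraph_four (g : Finset (Fin 4) → ℝ) :
    ∑ S ∈ completeGraph 4, g S = g ∅ + g {0} + g {1} + g {0, 1} + g {2} + g {0, 2} + g {1, 2} + g {3} + g {0, 3} + g {1, 3} + g {2, 3} := by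
  rw [completeGraph_four]
  repeat rw [Finset.sum_insert (by decide)]
  rw [Finset.sum_singleton]
  ring

theorem ray_common (S : Finset (Fin 4)) :
    IsEntropic (fun T : Finset (Fin 4) => ((if (S ∩ T).Nonempty then 1 else 0 : ℕ) : ℝ)) := by
  refine isEntropic_of_uniform (Fin 2) (fun k i => if k ∈ S then (i : ℕ) else 0)
    (fun T => if (S ∩ T).Nonempty then 1 else 0) ?_
  revert S
  decide +kernel

/-- rank function of three pairwise independent bits with zero sum and the pair of them -/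
def xorRank (s : Fin 4) (T : Finset (Fin 4)) : ℕ :=
  if T = ∅ then 0 else if T.card = 1 ∧ s ∉ T then 1 else 2

theorem ray_xor (s : Fin 4) :
    IsEntropic (fun T : Finset (Fin 4) => ((xorRank s T : ℕ) : ℝ)) := by
  refine isEntropic_of_uniform (Fin 4)
    (fun k i => if k = s then (i : ℕ) else
      if (k.val + 4 - s.val) % 4 = 1 then (i : ℕ) % 2 else
      if (k.val + 4 - s.val) % 4 = 2 then (i : ℕ) / 2 else
      ((i : ℕ) % 2 + (i : ℕ) / 2) % 2)
    (xorRank s) ?_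
  revert s
  decide +kernel

theorem facets_four (f : Finset (Fin 4) → ℝ) (hf : IsPolymatroid f) :
    0 ≤ -f {0, 1} - f {2} + f {0, 2} + f {1, 2} - f {3} + f {0, 3} + f {1, 3} - f {2, 3} ∧
    0 ≤ -f {1} + f {0, 1} - f {0, 2} + f {1, 2} - f {3} + f {0, 3} - f {1, 3} + f {2, 3} ∧
    0 ≤ -f {0} + f {0, 1} + f {0, 2} - f {1, 2} - f {3} - f {0, 3} + f {1, 3} + f {2, 3} ∧
    0 ≤ -f {1} + f {0, 1} - f {2} + f {0, 2} - f {1, 2} - f {0, 3} + f {1, 3} + f {2, 3} ∧
    0 ≤ -f {0} + f {0, 1} - f {2} - f {0, 2} + f {1, 2} + f {0, 3} - f {1, 3} + f {2, 3} ∧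
    0 ≤ -f {0} - f {1} - f {0, 1} + f {0, 2} + f {1, 2} + f {0, 3} + f {1, 3} - f {2, 3} ∧
    0 ≤ -f {1, 2} - f {3} + f {1, 3} + f {2, 3} ∧
    0 ≤ -f {0, 2} - f {3} + f {0, 3} + f {2, 3} ∧
    0 ≤ -f {3} + f {2, 3} ∧
    0 ≤ -f {0, 1} - f {3} + f {0, 3} + f {1, 3} ∧
    0 ≤ -f {3} + f {1, 3} ∧
    0 ≤ -f {3} + f {0, 3} ∧
    0 ≤ -f {2} + f {2, 3} ∧
    0 ≤ -f {2} + f {0, 2} - f {0, 3} + f {2, 3} ∧
    0 ≤ -f {2} + f {1, 2} - f {1, 3} + f {2, 3} ∧
    0 ≤ -f {0, 1} - f {2} + f {0, 2} + f {1, 2} ∧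
    0 ≤ -f {2} + f {1, 2} ∧
    0 ≤ -f {2} + f {0, 2} ∧
    0 ≤ f {0} + f {1} - f {0, 1} ∧
    0 ≤ -f {1} + f {1, 3} ∧
    0 ≤ -f {1} + f {0, 1} - f {0, 3} + f {1, 3} ∧
    0 ≤ -f {1} + f {1, 2} + f {1, 3} - f {2, 3} ∧
    0 ≤ -f {1} + f {1, 2} ∧
    0 ≤ -f {1} + f {0, 1} - f {0, 2} + f {1, 2} ∧
    0 ≤ -f {1} + f {0, 1} ∧
    0 ≤ f {0} + f {2} - f {0, 2} ∧
    0 ≤ f {0} + f {3} - f {0, 3} ∧
    0 ≤ -f {0} + f {0, 3} ∧
    0 ≤ -f {0} + f {0, 1} + f {0, 3} - f {1, 3} ∧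
    0 ≤ -f {0} + f {0, 2} + f {0, 3} - f {2, 3} ∧
    0 ≤ -f {0} + f {0, 2} ∧
    0 ≤ -f {0} + f {0, 1} ∧
    0 ≤ -f {0} + f {0, 1} + f {0, 2} - f {1, 2} ∧
    0 ≤ f {1} + f {2} - f {1, 2} ∧
    0 ≤ f {1} + f {3} - f {1, 3} ∧
    0 ≤ f {2} + f {3} - f {2, 3} := by
  have sub : ∀ S T U V, S ∩ T = U → S ∪ T = V → 0 ≤ f S + f T - f U - f V := by
    rintro S T U V rfl rfl
    have := hf.submod S T
    linarith
  have mn : ∀ S T, S ⊆ T → 0 ≤ f T - f S := by
    intro S T h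
    have := hf.mono S T h
    linarith
  have e0 := hf.empty
  have q0 := mn {1, 2, 3} {0, 1, 2, 3} (by decide)
  have q1 := mn {0, 2, 3} {0, 1, 2, 3} (by decide)
  have q2 := mn {0, 1, 3} {0, 1, 2, 3} (by decide)
  have q3 := mn {0, 1, 2} {0, 1, 2, 3} (by decide)
  have q4 := sub {0} {1} ∅ {0, 1} (by decide) (by decide)
  have q5 := sub {0, 2} {1, 2} {2} {0, 1, 2} (by decide) (by decide)
  have q6 := sub {0, 3} {1, 3} {3} {0, 1, 3} (by decide) (by decide)
  have q7 := sub {0, 2, 3} {1, 2, 3} {2, 3} {0, 1, 2, 3} (by decide) (by decide)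
  have q8 := sub {0} {2} ∅ {0, 2} (by decide) (by decide)
  have q9 := sub {0, 1} {1, 2} {1} {0, 1, 2} (by decide) (by decide)
  have q10 := sub {0, 3} {2, 3} {3} {0, 2, 3} (by decide) (by decide)
  have q11 := sub {0, 1, 3} {1, 2, 3} {1, 3} {0, 1, 2, 3} (by decide) (by decide)
  have q12 := sub {0} {3} ∅ {0, 3} (by decide) (by decide)
  have q13 := sub {0, 1} {1, 3} {1} {0, 1, 3} (by decide) (by decide)
  have q14 := sub {0, 2} {2, 3} {2} {0, 2, 3} (by decide) (by decide)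
  have q15 := sub {0, 1, 2} {1, 2, 3} {1, 2} {0, 1, 2, 3} (by decide) (by decide)
  have q16 := sub {1} {2} ∅ {1, 2} (by decide) (by decide)
  have q17 := sub {0, 1} {0, 2} {0} {0, 1, 2} (by decide) (by decide)
  have q18 := sub {1, 3} {2, 3} {3} {1, 2, 3} (by decide) (by decide)
  have q19 := sub {0, 1, 3} {0, 2, 3} {0, 3} {0, 1, 2, 3} (by decide) (by decide)
  have q20 := sub {1} {3} ∅ {1, 3} (by decide) (by decide)
  have q21 := sub {0, 1} {0, 3} {0} {0, 1, 3} (by decide) (by decide)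
  have q22 := sub {1, 2} {2, 3} {2} {1, 2, 3} (by decide) (by decide)
  have q23 := sub {0, 1, 2} {0, 2, 3} {0, 2} {0, 1, 2, 3} (by decide) (by decide)
  have q24 := sub {2} {3} ∅ {2, 3} (by decide) (by decide)
  have q25 := sub {0, 2} {0, 3} {0} {0, 2, 3} (by decide) (by decide)
  have q26 := sub {1, 2} {1, 3} {1} {1, 2, 3} (by decide) (by decide)
  have q27 := sub {0, 1, 2} {0, 1, 3} {0, 1} {0, 1, 2, 3} (by decide) (by decide)
  rw [e0] at q4 q8 q12 q16 q20 q24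
  refine ⟨by linarith, by linarith, by linarith, by linarith, by linarith, by linarith, by linarith, by linarith, by linarith, by linarith, by linarith, by linarith, by linarith, by linarith, by linarith, by linarith, by linarith, by linarith, by linarith, by linarith, by linarith, by linarith, by linarith, by linarith, by linarith, by linarith, by linarith, by linarith, by linarith, by linarith, by linarith, by linarith, by linarith, by linarith, by linarith, by linarith⟩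

theorem rays_four (c : Finset (Fin 4) → ℝ) (hc : EntropicOn (completeGraph 4) c) :
    0 ≤ c {3} + c {0, 3} + c {1, 3} + c {2, 3} ∧
    0 ≤ c {2} + c {0, 2} + c {1, 2} + c {2, 3} ∧
    0 ≤ c {1} + c {0, 1} + c {1, 2} + c {1, 3} ∧
    0 ≤ c {0} + c {0, 1} + c {0, 2} + c {0, 3} ∧
    0 ≤ c {2} + c {0, 2} + c {1, 2} + c {3} + c {0, 3} + c {1, 3} + c {2, 3} ∧
    0 ≤ c {1} + c {0, 1} + c {1, 2} + c {3} + c {0, 3} + c {1, 3} + c {2, 3} ∧
    0 ≤ c {1} + c {0, 1} + c {2} + c {0, 2} + c {1, 2} + c {1, 3} + c {2, 3} ∧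
    0 ≤ c {0} + c {0, 1} + c {0, 2} + c {3} + c {0, 3} + c {1, 3} + c {2, 3} ∧
    0 ≤ c {0} + c {0, 1} + c {2} + c {0, 2} + c {1, 2} + c {0, 3} + c {2, 3} ∧
    0 ≤ c {0} + c {1} + c {0, 1} + c {0, 2} + c {1, 2} + c {0, 3} + c {1, 3} ∧
    0 ≤ c {1} + c {0, 1} + c {2} + c {0, 2} + c {1, 2} + c {3} + c {0, 3} + c {1, 3} + c {2, 3} ∧
    0 ≤ c {0} + c {0, 1} + c {2} + c {0, 2} + c {1, 2} + c {3} + c {0, 3} + c {1, 3} + c {2, 3} ∧
    0 ≤ c {0} + c {1} + c {0, 1} + c {0, 2} + c {1, 2} + c {3} + c {0, 3} + c {1, 3} + c {2, 3} ∧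
    0 ≤ c {0} + c {1} + c {0, 1} + c {2} + c {0, 2} + c {1, 2} + c {0, 3} + c {1, 3} + c {2, 3} ∧
    0 ≤ c {0} + c {1} + c {0, 1} + c {2} + c {0, 2} + c {1, 2} + c {3} + c {0, 3} + c {1, 3} + c {2, 3} ∧
    0 ≤ c {0} + c {1} + 2 * c {0, 1} + c {2} + 2 * c {0, 2} + 2 * c {1, 2} + 2 * c {3} + 2 * c {0, 3} + 2 * c {1, 3} + 2 * c {2, 3} ∧
    0 ≤ c {0} + c {1} + 2 * c {0, 1} + 2 * c {2} + 2 * c {0, 2} + 2 * c {1, 2} + c {3} + 2 * c {0, 3} + 2 * c {1, 3} + 2 * c {2, 3} ∧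
    0 ≤ c {0} + 2 * c {1} + 2 * c {0, 1} + c {2} + 2 * c {0, 2} + 2 * c {1, 2} + c {3} + 2 * c {0, 3} + 2 * c {1, 3} + 2 * c {2, 3} ∧
    0 ≤ 2 * c {0} + c {1} + 2 * c {0, 1} + c {2} + 2 * c {0, 2} + 2 * c {1, 2} + c {3} + 2 * c {0, 3} + 2 * c {1, 3} + 2 * c {2, 3} := by
  have w0 := hc _ (ray_common {3})
  have w1 := hc _ (ray_common {2})
  have w2 := hc _ (ray_common {1})
  have w3 := hc _ (ray_common {0})
  have w4 := hc _ (ray_common {2, 3})
  have w5 := hc _ (ray_common {1, 3})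
  have w6 := hc _ (ray_common {1, 2})
  have w7 := hc _ (ray_common {0, 3})
  have w8 := hc _ (ray_common {0, 2})
  have w9 := hc _ (ray_common {0, 1})
  have w10 := hc _ (ray_common {1, 2, 3})
  have w11 := hc _ (ray_common {0, 2, 3})
  have w12 := hc _ (ray_common {0, 1, 3})
  have w13 := hc _ (ray_common {0, 1, 2})
  have w14 := hc _ (ray_common {0, 1, 2, 3})
  have w15 := hc _ (ray_xor 3)
  have w16 := hc _ (ray_xor 2)
  have w17 := hc _ (ray_xor 1)
  have w18 := hc _ (ray_xor 0)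
  rw [sum_completeGraph_four] at w0 w1 w2 w3 w4 w5 w6 w7 w8 w9 w10 w11 w12 w13 w14 w15 w16 w17 w18
  have v0 : 0 ≤ c {3} + c {0, 3} + c {1, 3} + c {2, 3} := by
    refine w0.trans (le_of_eq ?_)
    rw [show (if (({3} : Finset (Fin 4)) ∩ ∅).Nonempty then 1 else 0 : ℕ) = 0 from by decide]
    rw [show (if (({3} : Finset (Fin 4)) ∩ {0}).Nonempty then 1 else 0 : ℕ) = 0 from by decide]
    rw [show (if (({3} : Finset (Fin 4)) ∩ {1}).Nonempty then 1 else 0 : ℕ) = 0 from by decide]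
    rw [show (if (({3} : Finset (Fin 4)) ∩ {0, 1}).Nonempty then 1 else 0 : ℕ) = 0 from by decide]
    rw [show (if (({3} : Finset (Fin 4)) ∩ {2}).Nonempty then 1 else 0 : ℕ) = 0 from by decide]
    rw [show (if (({3} : Finset (Fin 4)) ∩ {0, 2}).Nonempty then 1 else 0 : ℕ) = 0 from by decide]
    rw [show (if (({3} : Finset (Fin 4)) ∩ {1, 2}).Nonempty then 1 else 0 : ℕ) = 0 from by decide]
    rw [show (if (({3} : Finset (Fin 4)) ∩ {3}).Nonempty then 1 else 0 : ℕ) = 1 from by decide]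
    rw [show (if (({3} : Finset (Fin 4)) ∩ {0, 3}).Nonempty then 1 else 0 : ℕ) = 1 from by decide]
    rw [show (if (({3} : Finset (Fin 4)) ∩ {1, 3}).Nonempty then 1 else 0 : ℕ) = 1 from by decide]
    rw [show (if (({3} : Finset (Fin 4)) ∩ {2, 3}).Nonempty then 1 else 0 : ℕ) = 1 from by decide]
    push_cast
    ring
  have v1 : 0 ≤ c {2} + c {0, 2} + c {1, 2} + c {2, 3} := by
    refine w1.trans (le_of_eq ?_)
    rw [show (if (({2} : Finset (Fin 4)) ∩ ∅).Nonempty then 1 else 0 : ℕ) = 0 from by decide]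
    rw [show (if (({2} : Finset (Fin 4)) ∩ {0}).Nonempty then 1 else 0 : ℕ) = 0 from by decide]
    rw [show (if (({2} : Finset (Fin 4)) ∩ {1}).Nonempty then 1 else 0 : ℕ) = 0 from by decide]
    rw [show (if (({2} : Finset (Fin 4)) ∩ {0, 1}).Nonempty then 1 else 0 : ℕ) = 0 from by decide]
    rw [show (if (({2} : Finset (Fin 4)) ∩ {2}).Nonempty then 1 else 0 : ℕ) = 1 from by decide]
    rw [show (if (({2} : Finset (Fin 4)) ∩ {0, 2}).Nonempty then 1 else 0 : ℕ) = 1 from by decide]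
    rw [show (if (({2} : Finset (Fin 4)) ∩ {1, 2}).Nonempty then 1 else 0 : ℕ) = 1 from by decide]
    rw [show (if (({2} : Finset (Fin 4)) ∩ {3}).Nonempty then 1 else 0 : ℕ) = 0 from by decide]
    rw [show (if (({2} : Finset (Fin 4)) ∩ {0, 3}).Nonempty then 1 else 0 : ℕ) = 0 from by decide]
    rw [show (if (({2} : Finset (Fin 4)) ∩ {1, 3}).Nonempty then 1 else 0 : ℕ) = 0 from by decide]
    rw [show (if (({2} : Finset (Fin 4)) ∩ {2, 3}).Nonempty then 1 else 0 : ℕ) = 1 from by decide]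
    push_cast
    ring
  have v2 : 0 ≤ c {1} + c {0, 1} + c {1, 2} + c {1, 3} := by
    refine w2.trans (le_of_eq ?_)
    rw [show (if (({1} : Finset (Fin 4)) ∩ ∅).Nonempty then 1 else 0 : ℕ) = 0 from by decide]
    rw [show (if (({1} : Finset (Fin 4)) ∩ {0}).Nonempty then 1 else 0 : ℕ) = 0 from by decide]
    rw [show (if (({1} : Finset (Fin 4)) ∩ {1}).Nonempty then 1 else 0 : ℕ) = 1 from by decide]
    rw [show (if (({1} : Finset (Fin 4)) ∩ {0, 1}).Nonempty then 1 else 0 : ℕ) = 1 from by decide]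
    rw [show (if (({1} : Finset (Fin 4)) ∩ {2}).Nonempty then 1 else 0 : ℕ) = 0 from by decide]
    rw [show (if (({1} : Finset (Fin 4)) ∩ {0, 2}).Nonempty then 1 else 0 : ℕ) = 0 from by decide]
    rw [show (if (({1} : Finset (Fin 4)) ∩ {1, 2}).Nonempty then 1 else 0 : ℕ) = 1 from by decide]
    rw [show (if (({1} : Finset (Fin 4)) ∩ {3}).Nonempty then 1 else 0 : ℕ) = 0 from by decide]
    rw [show (if (({1} : Finset (Fin 4)) ∩ {0, 3}).Nonempty then 1 else 0 : ℕ) = 0 from by decide]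
    rw [show (if (({1} : Finset (Fin 4)) ∩ {1, 3}).Nonempty then 1 else 0 : ℕ) = 1 from by decide]
    rw [show (if (({1} : Finset (Fin 4)) ∩ {2, 3}).Nonempty then 1 else 0 : ℕ) = 0 from by decide]
    push_cast
    ring
  have v3 : 0 ≤ c {0} + c {0, 1} + c {0, 2} + c {0, 3} := by
    refine w3.trans (le_of_eq ?_)
    rw [show (if (({0} : Finset (Fin 4)) ∩ ∅).Nonempty then 1 else 0 : ℕ) = 0 from by decide]
    rw [show (if (({0} : Finset (Fin 4)) ∩ {0}).Nonempty then 1 else 0 : ℕ) = 1 from by decide]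
    rw [show (if (({0} : Finset (Fin 4)) ∩ {1}).Nonempty then 1 else 0 : ℕ) = 0 from by decide]
    rw [show (if (({0} : Finset (Fin 4)) ∩ {0, 1}).Nonempty then 1 else 0 : ℕ) = 1 from by decide]
    rw [show (if (({0} : Finset (Fin 4)) ∩ {2}).Nonempty then 1 else 0 : ℕ) = 0 from by decide]
    rw [show (if (({0} : Finset (Fin 4)) ∩ {0, 2}).Nonempty then 1 else 0 : ℕ) = 1 from by decide]
    rw [show (if (({0} : Finset (Fin 4)) ∩ {1, 2}).Nonempty then 1 else 0 : ℕ) = 0 from by decide]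
    rw [show (if (({0} : Finset (Fin 4)) ∩ {3}).Nonempty then 1 else 0 : ℕ) = 0 from by decide]
    rw [show (if (({0} : Finset (Fin 4)) ∩ {0, 3}).Nonempty then 1 else 0 : ℕ) = 1 from by decide]
    rw [show (if (({0} : Finset (Fin 4)) ∩ {1, 3}).Nonempty then 1 else 0 : ℕ) = 0 from by decide]
    rw [show (if (({0} : Finset (Fin 4)) ∩ {2, 3}).Nonempty then 1 else 0 : ℕ) = 0 from by decide]
    push_cast
    ring
  have v4 : 0 ≤ c {2} + c {0, 2} + c {1, 2} + c {3} + c {0, 3} + c {1, 3} + c {2, 3} := by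
    refine w4.trans (le_of_eq ?_)
    rw [show (if (({2, 3} : Finset (Fin 4)) ∩ ∅).Nonempty then 1 else 0 : ℕ) = 0 from by decide]
    rw [show (if (({2, 3} : Finset (Fin 4)) ∩ {0}).Nonempty then 1 else 0 : ℕ) = 0 from by decide]
    rw [show (if (({2, 3} : Finset (Fin 4)) ∩ {1}).Nonempty then 1 else 0 : ℕ) = 0 from by decide]
    rw [show (if (({2, 3} : Finset (Fin 4)) ∩ {0, 1}).Nonempty then 1 else 0 : ℕ) = 0 from by decide]
    rw [show (if (({2, 3} : Finset (Fin 4)) ∩ {2}).Nonempty then 1 else 0 : ℕ) = 1 from by decide]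
    rw [show (if (({2, 3} : Finset (Fin 4)) ∩ {0, 2}).Nonempty then 1 else 0 : ℕ) = 1 from by decide]
    rw [show (if (({2, 3} : Finset (Fin 4)) ∩ {1, 2}).Nonempty then 1 else 0 : ℕ) = 1 from by decide]
    rw [show (if (({2, 3} : Finset (Fin 4)) ∩ {3}).Nonempty then 1 else 0 : ℕ) = 1 from by decide]
    rw [show (if (({2, 3} : Finset (Fin 4)) ∩ {0, 3}).Nonempty then 1 else 0 : ℕ) = 1 from by decide]
    rw [show (if (({2, 3} : Finset (Fin 4)) ∩ {1, 3}).Nonempty then 1 else 0 : ℕ) = 1 from by decide]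
    rw [show (if (({2, 3} : Finset (Fin 4)) ∩ {2, 3}).Nonempty then 1 else 0 : ℕ) = 1 from by decide]
    push_cast
    ring
  have v5 : 0 ≤ c {1} + c {0, 1} + c {1, 2} + c {3} + c {0, 3} + c {1, 3} + c {2, 3} := by
    refine w5.trans (le_of_eq ?_)
    rw [show (if (({1, 3} : Finset (Fin 4)) ∩ ∅).Nonempty then 1 else 0 : ℕ) = 0 from by decide]
    rw [show (if (({1, 3} : Finset (Fin 4)) ∩ {0}).Nonempty then 1 else 0 : ℕ) = 0 from by decide]
    rw [show (if (({1, 3} : Finset (Fin 4)) ∩ {1}).Nonempty then 1 else 0 : ℕ) = 1 from by decide]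
    rw [show (if (({1, 3} : Finset (Fin 4)) ∩ {0, 1}).Nonempty then 1 else 0 : ℕ) = 1 from by decide]
    rw [show (if (({1, 3} : Finset (Fin 4)) ∩ {2}).Nonempty then 1 else 0 : ℕ) = 0 from by decide]
    rw [show (if (({1, 3} : Finset (Fin 4)) ∩ {0, 2}).Nonempty then 1 else 0 : ℕ) = 0 from by decide]
    rw [show (if (({1, 3} : Finset (Fin 4)) ∩ {1, 2}).Nonempty then 1 else 0 : ℕ) = 1 from by decide]
    rw [show (if (({1, 3} : Finset (Fin 4)) ∩ {3}).Nonempty then 1 else 0 : ℕ) = 1 from by decide]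
    rw [show (if (({1, 3} : Finset (Fin 4)) ∩ {0, 3}).Nonempty then 1 else 0 : ℕ) = 1 from by decide]
    rw [show (if (({1, 3} : Finset (Fin 4)) ∩ {1, 3}).Nonempty then 1 else 0 : ℕ) = 1 from by decide]
    rw [show (if (({1, 3} : Finset (Fin 4)) ∩ {2, 3}).Nonempty then 1 else 0 : ℕ) = 1 from by decide]
    push_cast
    ring
  have v6 : 0 ≤ c {1} + c {0, 1} + c {2} + c {0, 2} + c {1, 2} + c {1, 3} + c {2, 3} := by
    refine w6.trans (le_of_eq ?_)
    rw [show (if (({1, 2} : Finset (Fin 4)) ∩ ∅).Nonempty then 1 else 0 : ℕ) = 0 from by decide]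
    rw [show (if (({1, 2} : Finset (Fin 4)) ∩ {0}).Nonempty then 1 else 0 : ℕ) = 0 from by decide]
    rw [show (if (({1, 2} : Finset (Fin 4)) ∩ {1}).Nonempty then 1 else 0 : ℕ) = 1 from by decide]
    rw [show (if (({1, 2} : Finset (Fin 4)) ∩ {0, 1}).Nonempty then 1 else 0 : ℕ) = 1 from by decide]
    rw [show (if (({1, 2} : Finset (Fin 4)) ∩ {2}).Nonempty then 1 else 0 : ℕ) = 1 from by decide]
    rw [show (if (({1, 2} : Finset (Fin 4)) ∩ {0, 2}).Nonempty then 1 else 0 : ℕ) = 1 from by decide]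
    rw [show (if (({1, 2} : Finset (Fin 4)) ∩ {1, 2}).Nonempty then 1 else 0 : ℕ) = 1 from by decide]
    rw [show (if (({1, 2} : Finset (Fin 4)) ∩ {3}).Nonempty then 1 else 0 : ℕ) = 0 from by decide]
    rw [show (if (({1, 2} : Finset (Fin 4)) ∩ {0, 3}).Nonempty then 1 else 0 : ℕ) = 0 from by decide]
    rw [show (if (({1, 2} : Finset (Fin 4)) ∩ {1, 3}).Nonempty then 1 else 0 : ℕ) = 1 from by decide]
    rw [show (if (({1, 2} : Finset (Fin 4)) ∩ {2, 3}).Nonempty then 1 else 0 : ℕ) = 1 from by decide]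
    push_cast
    ring
  have v7 : 0 ≤ c {0} + c {0, 1} + c {0, 2} + c {3} + c {0, 3} + c {1, 3} + c {2, 3} := by
    refine w7.trans (le_of_eq ?_)
    rw [show (if (({0, 3} : Finset (Fin 4)) ∩ ∅).Nonempty then 1 else 0 : ℕ) = 0 from by decide]
    rw [show (if (({0, 3} : Finset (Fin 4)) ∩ {0}).Nonempty then 1 else 0 : ℕ) = 1 from by decide]
    rw [show (if (({0, 3} : Finset (Fin 4)) ∩ {1}).Nonempty then 1 else 0 : ℕ) = 0 from by decide]
    rw [show (if (({0, 3} : Finset (Fin 4)) ∩ {0, 1}).Nonempty then 1 else 0 : ℕ) = 1 from by decide]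
    rw [show (if (({0, 3} : Finset (Fin 4)) ∩ {2}).Nonempty then 1 else 0 : ℕ) = 0 from by decide]
    rw [show (if (({0, 3} : Finset (Fin 4)) ∩ {0, 2}).Nonempty then 1 else 0 : ℕ) = 1 from by decide]
    rw [show (if (({0, 3} : Finset (Fin 4)) ∩ {1, 2}).Nonempty then 1 else 0 : ℕ) = 0 from by decide]
    rw [show (if (({0, 3} : Finset (Fin 4)) ∩ {3}).Nonempty then 1 else 0 : ℕ) = 1 from by decide]
    rw [show (if (({0, 3} : Finset (Fin 4)) ∩ {0, 3}).Nonempty then 1 else 0 : ℕ) = 1 from by decide]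
    rw [show (if (({0, 3} : Finset (Fin 4)) ∩ {1, 3}).Nonempty then 1 else 0 : ℕ) = 1 from by decide]
    rw [show (if (({0, 3} : Finset (Fin 4)) ∩ {2, 3}).Nonempty then 1 else 0 : ℕ) = 1 from by decide]
    push_cast
    ring
  have v8 : 0 ≤ c {0} + c {0, 1} + c {2} + c {0, 2} + c {1, 2} + c {0, 3} + c {2, 3} := by
    refine w8.trans (le_of_eq ?_)
    rw [show (if (({0, 2} : Finset (Fin 4)) ∩ ∅).Nonempty then 1 else 0 : ℕ) = 0 from by decide]
    rw [show (if (({0, 2} : Finset (Fin 4)) ∩ {0}).Nonempty then 1 else 0 : ℕ) = 1 from by decide]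
    rw [show (if (({0, 2} : Finset (Fin 4)) ∩ {1}).Nonempty then 1 else 0 : ℕ) = 0 from by decide]
    rw [show (if (({0, 2} : Finset (Fin 4)) ∩ {0, 1}).Nonempty then 1 else 0 : ℕ) = 1 from by decide]
    rw [show (if (({0, 2} : Finset (Fin 4)) ∩ {2}).Nonempty then 1 else 0 : ℕ) = 1 from by decide]
    rw [show (if (({0, 2} : Finset (Fin 4)) ∩ {0, 2}).Nonempty then 1 else 0 : ℕ) = 1 from by decide]
    rw [show (if (({0, 2} : Finset (Fin 4)) ∩ {1, 2}).Nonempty then 1 else 0 : ℕ) = 1 from by decide]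
    rw [show (if (({0, 2} : Finset (Fin 4)) ∩ {3}).Nonempty then 1 else 0 : ℕ) = 0 from by decide]
    rw [show (if (({0, 2} : Finset (Fin 4)) ∩ {0, 3}).Nonempty then 1 else 0 : ℕ) = 1 from by decide]
    rw [show (if (({0, 2} : Finset (Fin 4)) ∩ {1, 3}).Nonempty then 1 else 0 : ℕ) = 0 from by decide]
    rw [show (if (({0, 2} : Finset (Fin 4)) ∩ {2, 3}).Nonempty then 1 else 0 : ℕ) = 1 from by decide]
    push_cast
    ring
  have v9 : 0 ≤ c {0} + c {1} + c {0, 1} + c {0, 2} + c {1, 2} + c {0, 3} + c {1, 3} := by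
    refine w9.trans (le_of_eq ?_)
    rw [show (if (({0, 1} : Finset (Fin 4)) ∩ ∅).Nonempty then 1 else 0 : ℕ) = 0 from by decide]
    rw [show (if (({0, 1} : Finset (Fin 4)) ∩ {0}).Nonempty then 1 else 0 : ℕ) = 1 from by decide]
    rw [show (if (({0, 1} : Finset (Fin 4)) ∩ {1}).Nonempty then 1 else 0 : ℕ) = 1 from by decide]
    rw [show (if (({0, 1} : Finset (Fin 4)) ∩ {0, 1}).Nonempty then 1 else 0 : ℕ) = 1 from by decide]
    rw [show (if (({0, 1} : Finset (Fin 4)) ∩ {2}).Nonempty then 1 else 0 : ℕ) = 0 from by decide]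
    rw [show (if (({0, 1} : Finset (Fin 4)) ∩ {0, 2}).Nonempty then 1 else 0 : ℕ) = 1 from by decide]
    rw [show (if (({0, 1} : Finset (Fin 4)) ∩ {1, 2}).Nonempty then 1 else 0 : ℕ) = 1 from by decide]
    rw [show (if (({0, 1} : Finset (Fin 4)) ∩ {3}).Nonempty then 1 else 0 : ℕ) = 0 from by decide]
    rw [show (if (({0, 1} : Finset (Fin 4)) ∩ {0, 3}).Nonempty then 1 else 0 : ℕ) = 1 from by decide]
    rw [show (if (({0, 1} : Finset (Fin 4)) ∩ {1, 3}).Nonempty then 1 else 0 : ℕ) = 1 from by decide]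
    rw [show (if (({0, 1} : Finset (Fin 4)) ∩ {2, 3}).Nonempty then 1 else 0 : ℕ) = 0 from by decide]
    push_cast
    ring
  have v10 : 0 ≤ c {1} + c {0, 1} + c {2} + c {0, 2} + c {1, 2} + c {3} + c {0, 3} + c {1, 3} + c {2, 3} := by
    refine w10.trans (le_of_eq ?_)
    rw [show (if (({1, 2, 3} : Finset (Fin 4)) ∩ ∅).Nonempty then 1 else 0 : ℕ) = 0 from by decide]
    rw [show (if (({1, 2, 3} : Finset (Fin 4)) ∩ {0}).Nonempty then 1 else 0 : ℕ) = 0 from by decide]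
    rw [show (if (({1, 2, 3} : Finset (Fin 4)) ∩ {1}).Nonempty then 1 else 0 : ℕ) = 1 from by decide]
    rw [show (if (({1, 2, 3} : Finset (Fin 4)) ∩ {0, 1}).Nonempty then 1 else 0 : ℕ) = 1 from by decide]
    rw [show (if (({1, 2, 3} : Finset (Fin 4)) ∩ {2}).Nonempty then 1 else 0 : ℕ) = 1 from by decide]
    rw [show (if (({1, 2, 3} : Finset (Fin 4)) ∩ {0, 2}).Nonempty then 1 else 0 : ℕ) = 1 from by decide]
    rw [show (if (({1, 2, 3} : Finset (Fin 4)) ∩ {1, 2}).Nonempty then 1 else 0 : ℕ) = 1 from by decide]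
    rw [show (if (({1, 2, 3} : Finset (Fin 4)) ∩ {3}).Nonempty then 1 else 0 : ℕ) = 1 from by decide]
    rw [show (if (({1, 2, 3} : Finset (Fin 4)) ∩ {0, 3}).Nonempty then 1 else 0 : ℕ) = 1 from by decide]
    rw [show (if (({1, 2, 3} : Finset (Fin 4)) ∩ {1, 3}).Nonempty then 1 else 0 : ℕ) = 1 from by decide]
    rw [show (if (({1, 2, 3} : Finset (Fin 4)) ∩ {2, 3}).Nonempty then 1 else 0 : ℕ) = 1 from by decide]
    push_cast
    ring
  have v11 : 0 ≤ c {0} + c {0, 1} + c {2} + c {0, 2} + c {1, 2} + c {3} + c {0, 3} + c {1, 3} + c {2, 3} := by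
    refine w11.trans (le_of_eq ?_)
    rw [show (if (({0, 2, 3} : Finset (Fin 4)) ∩ ∅).Nonempty then 1 else 0 : ℕ) = 0 from by decide]
    rw [show (if (({0, 2, 3} : Finset (Fin 4)) ∩ {0}).Nonempty then 1 else 0 : ℕ) = 1 from by decide]
    rw [show (if (({0, 2, 3} : Finset (Fin 4)) ∩ {1}).Nonempty then 1 else 0 : ℕ) = 0 from by decide]
    rw [show (if (({0, 2, 3} : Finset (Fin 4)) ∩ {0, 1}).Nonempty then 1 else 0 : ℕ) = 1 from by decide]
    rw [show (if (({0, 2, 3} : Finset (Fin 4)) ∩ {2}).Nonempty then 1 else 0 : ℕ) = 1 from by decide]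
    rw [show (if (({0, 2, 3} : Finset (Fin 4)) ∩ {0, 2}).Nonempty then 1 else 0 : ℕ) = 1 from by decide]
    rw [show (if (({0, 2, 3} : Finset (Fin 4)) ∩ {1, 2}).Nonempty then 1 else 0 : ℕ) = 1 from by decide]
    rw [show (if (({0, 2, 3} : Finset (Fin 4)) ∩ {3}).Nonempty then 1 else 0 : ℕ) = 1 from by decide]
    rw [show (if (({0, 2, 3} : Finset (Fin 4)) ∩ {0, 3}).Nonempty then 1 else 0 : ℕ) = 1 from by decide]
    rw [show (if (({0, 2, 3} : Finset (Fin 4)) ∩ {1, 3}).Nonempty then 1 else 0 : ℕ) = 1 from by decide]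
    rw [show (if (({0, 2, 3} : Finset (Fin 4)) ∩ {2, 3}).Nonempty then 1 else 0 : ℕ) = 1 from by decide]
    push_cast
    ring
  have v12 : 0 ≤ c {0} + c {1} + c {0, 1} + c {0, 2} + c {1, 2} + c {3} + c {0, 3} + c {1, 3} + c {2, 3} := by
    refine w12.trans (le_of_eq ?_)
    rw [show (if (({0, 1, 3} : Finset (Fin 4)) ∩ ∅).Nonempty then 1 else 0 : ℕ) = 0 from by decide]
    rw [show (if (({0, 1, 3} : Finset (Fin 4)) ∩ {0}).Nonempty then 1 else 0 : ℕ) = 1 from by decide]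
    rw [show (if (({0, 1, 3} : Finset (Fin 4)) ∩ {1}).Nonempty then 1 else 0 : ℕ) = 1 from by decide]
    rw [show (if (({0, 1, 3} : Finset (Fin 4)) ∩ {0, 1}).Nonempty then 1 else 0 : ℕ) = 1 from by decide]
    rw [show (if (({0, 1, 3} : Finset (Fin 4)) ∩ {2}).Nonempty then 1 else 0 : ℕ) = 0 from by decide]
    rw [show (if (({0, 1, 3} : Finset (Fin 4)) ∩ {0, 2}).Nonempty then 1 else 0 : ℕ) = 1 from by decide]
    rw [show (if (({0, 1, 3} : Finset (Fin 4)) ∩ {1, 2}).Nonempty then 1 else 0 : ℕ) = 1 from by decide]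
    rw [show (if (({0, 1, 3} : Finset (Fin 4)) ∩ {3}).Nonempty then 1 else 0 : ℕ) = 1 from by decide]
    rw [show (if (({0, 1, 3} : Finset (Fin 4)) ∩ {0, 3}).Nonempty then 1 else 0 : ℕ) = 1 from by decide]
    rw [show (if (({0, 1, 3} : Finset (Fin 4)) ∩ {1, 3}).Nonempty then 1 else 0 : ℕ) = 1 from by decide]
    rw [show (if (({0, 1, 3} : Finset (Fin 4)) ∩ {2, 3}).Nonempty then 1 else 0 : ℕ) = 1 from by decide]
    push_cast
    ring
  have v13 : 0 ≤ c {0} + c {1} + c {0, 1} + c {2} + c {0, 2} + c {1, 2} + c {0, 3} + c {1, 3} + c {2, 3} := by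
    refine w13.trans (le_of_eq ?_)
    rw [show (if (({0, 1, 2} : Finset (Fin 4)) ∩ ∅).Nonempty then 1 else 0 : ℕ) = 0 from by decide]
    rw [show (if (({0, 1, 2} : Finset (Fin 4)) ∩ {0}).Nonempty then 1 else 0 : ℕ) = 1 from by decide]
    rw [show (if (({0, 1, 2} : Finset (Fin 4)) ∩ {1}).Nonempty then 1 else 0 : ℕ) = 1 from by decide]
    rw [show (if (({0, 1, 2} : Finset (Fin 4)) ∩ {0, 1}).Nonempty then 1 else 0 : ℕ) = 1 from by decide]
    rw [show (if (({0, 1, 2} : Finset (Fin 4)) ∩ {2}).Nonempty then 1 else 0 : ℕ) = 1 from by decide]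
    rw [show (if (({0, 1, 2} : Finset (Fin 4)) ∩ {0, 2}).Nonempty then 1 else 0 : ℕ) = 1 from by decide]
    rw [show (if (({0, 1, 2} : Finset (Fin 4)) ∩ {1, 2}).Nonempty then 1 else 0 : ℕ) = 1 from by decide]
    rw [show (if (({0, 1, 2} : Finset (Fin 4)) ∩ {3}).Nonempty then 1 else 0 : ℕ) = 0 from by decide]
    rw [show (if (({0, 1, 2} : Finset (Fin 4)) ∩ {0, 3}).Nonempty then 1 else 0 : ℕ) = 1 from by decide]
    rw [show (if (({0, 1, 2} : Finset (Fin 4)) ∩ {1, 3}).Nonempty then 1 else 0 : ℕ) = 1 from by decide]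
    rw [show (if (({0, 1, 2} : Finset (Fin 4)) ∩ {2, 3}).Nonempty then 1 else 0 : ℕ) = 1 from by decide]
    push_cast
    ring
  have v14 : 0 ≤ c {0} + c {1} + c {0, 1} + c {2} + c {0, 2} + c {1, 2} + c {3} + c {0, 3} + c {1, 3} + c {2, 3} := by
    refine w14.trans (le_of_eq ?_)
    rw [show (if (({0, 1, 2, 3} : Finset (Fin 4)) ∩ ∅).Nonempty then 1 else 0 : ℕ) = 0 from by decide]
    rw [show (if (({0, 1, 2, 3} : Finset (Fin 4)) ∩ {0}).Nonempty then 1 else 0 : ℕ) = 1 from by decide]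
    rw [show (if (({0, 1, 2, 3} : Finset (Fin 4)) ∩ {1}).Nonempty then 1 else 0 : ℕ) = 1 from by decide]
    rw [show (if (({0, 1, 2, 3} : Finset (Fin 4)) ∩ {0, 1}).Nonempty then 1 else 0 : ℕ) = 1 from by decide]
    rw [show (if (({0, 1, 2, 3} : Finset (Fin 4)) ∩ {2}).Nonempty then 1 else 0 : ℕ) = 1 from by decide]
    rw [show (if (({0, 1, 2, 3} : Finset (Fin 4)) ∩ {0, 2}).Nonempty then 1 else 0 : ℕ) = 1 from by decide]
    rw [show (if (({0, 1, 2, 3} : Finset (Fin 4)) ∩ {1, 2}).Nonempty then 1 else 0 : ℕ) = 1 from by decide]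
    rw [show (if (({0, 1, 2, 3} : Finset (Fin 4)) ∩ {3}).Nonempty then 1 else 0 : ℕ) = 1 from by decide]
    rw [show (if (({0, 1, 2, 3} : Finset (Fin 4)) ∩ {0, 3}).Nonempty then 1 else 0 : ℕ) = 1 from by decide]
    rw [show (if (({0, 1, 2, 3} : Finset (Fin 4)) ∩ {1, 3}).Nonempty then 1 else 0 : ℕ) = 1 from by decide]
    rw [show (if (({0, 1, 2, 3} : Finset (Fin 4)) ∩ {2, 3}).Nonempty then 1 else 0 : ℕ) = 1 from by decide]
    push_cast
    ring
  have v15 : 0 ≤ c {0} + c {1} + 2 * c {0, 1} + c {2} + 2 * c {0, 2} + 2 * c {1, 2} + 2 * c {3} + 2 * c {0, 3} + 2 * c {1, 3} + 2 * c {2, 3} := by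
    refine w15.trans (le_of_eq ?_)
    rw [show xorRank 3 ∅ = 0 from by decide]
    rw [show xorRank 3 {0} = 1 from by decide]
    rw [show xorRank 3 {1} = 1 from by decide]
    rw [show xorRank 3 {0, 1} = 2 from by decide]
    rw [show xorRank 3 {2} = 1 from by decide]
    rw [show xorRank 3 {0, 2} = 2 from by decide]
    rw [show xorRank 3 {1, 2} = 2 from by decide]
    rw [show xorRank 3 {3} = 2 from by decide]
    rw [show xorRank 3 {0, 3} = 2 from by decide]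
    rw [show xorRank 3 {1, 3} = 2 from by decide]
    rw [show xorRank 3 {2, 3} = 2 from by decide]
    push_cast
    ring
  have v16 : 0 ≤ c {0} + c {1} + 2 * c {0, 1} + 2 * c {2} + 2 * c {0, 2} + 2 * c {1, 2} + c {3} + 2 * c {0, 3} + 2 * c {1, 3} + 2 * c {2, 3} := by
    refine w16.trans (le_of_eq ?_)
    rw [show xorRank 2 ∅ = 0 from by decide]
    rw [show xorRank 2 {0} = 1 from by decide]
    rw [show xorRank 2 {1} = 1 from by decide]
    rw [show xorRank 2 {0, 1} = 2 from by decide]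
    rw [show xorRank 2 {2} = 2 from by decide]
    rw [show xorRank 2 {0, 2} = 2 from by decide]
    rw [show xorRank 2 {1, 2} = 2 from by decide]
    rw [show xorRank 2 {3} = 1 from by decide]
    rw [show xorRank 2 {0, 3} = 2 from by decide]
    rw [show xorRank 2 {1, 3} = 2 from by decide]
    rw [show xorRank 2 {2, 3} = 2 from by decide]
    push_cast
    ring
  have v17 : 0 ≤ c {0} + 2 * c {1} + 2 * c {0, 1} + c {2} + 2 * c {0, 2} + 2 * c {1, 2} + c {3} + 2 * c {0, 3} + 2 * c {1, 3} + 2 * c {2, 3} := by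
    refine w17.trans (le_of_eq ?_)
    rw [show xorRank 1 ∅ = 0 from by decide]
    rw [show xorRank 1 {0} = 1 from by decide]
    rw [show xorRank 1 {1} = 2 from by decide]
    rw [show xorRank 1 {0, 1} = 2 from by decide]
    rw [show xorRank 1 {2} = 1 from by decide]
    rw [show xorRank 1 {0, 2} = 2 from by decide]
    rw [show xorRank 1 {1, 2} = 2 from by decide]
    rw [show xorRank 1 {3} = 1 from by decide]
    rw [show xorRank 1 {0, 3} = 2 from by decide]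
    rw [show xorRank 1 {1, 3} = 2 from by decide]
    rw [show xorRank 1 {2, 3} = 2 from by decide]
    push_cast
    ring
  have v18 : 0 ≤ 2 * c {0} + c {1} + 2 * c {0, 1} + c {2} + 2 * c {0, 2} + 2 * c {1, 2} + c {3} + 2 * c {0, 3} + 2 * c {1, 3} + 2 * c {2, 3} := by
    refine w18.trans (le_of_eq ?_)
    rw [show xorRank 0 ∅ = 0 from by decide]
    rw [show xorRank 0 {0} = 2 from by decide]
    rw [show xorRank 0 {1} = 1 from by decide]
    rw [show xorRank 0 {0, 1} = 2 from by decide]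
    rw [show xorRank 0 {2} = 1 from by decide]
    rw [show xorRank 0 {0, 2} = 2 from by decide]
    rw [show xorRank 0 {1, 2} = 2 from by decide]
    rw [show xorRank 0 {3} = 1 from by decide]
    rw [show xorRank 0 {0, 3} = 2 from by decide]
    rw [show xorRank 0 {1, 3} = 2 from by decide]
    rw [show xorRank 0 {2, 3} = 2 from by decide]
    push_cast
    ring
  exact ⟨v0, v1, v2, v3, v4, v5, v6, v7, v8, v9, v10, v11, v12, v13, v14, v15, v16, v17, v18⟩

theorem completeGraph_four_complete : ShannonComplete (completeGraph 4) := by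
  intro c hc f hf
  rw [sum_completeGraph_four]
  have e0 := hf.empty
  obtain ⟨u0, u1, u2, u3, u4, u5, u6, u7, u8, u9, u10, u11, u12, u13, u14, u15, u16, u17, u18, u19, u20, u21, u22, u23, u24, u25, u26, u27, u28, u29, u30, u31, u32, u33, u34, u35⟩ := facets_four f hf
  obtain ⟨v0, v1, v2, v3, v4, v5, v6, v7, v8, v9, v10, v11, v12, v13, v14, v15, v16, v17, v18⟩ := rays_four c hc
  obtain ⟨l0, l1, l2, l3, l4, l5, l6, l7, l8, l9, l10, l11, l12, l13, l14, l15, l16, l17, l18, p0, p1, p2, p3, p4, p5, p6, p7, p8, p9, p10, p11, p12, p13, p14, p15, p16, p17, p18,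
    g0, g1, g2, g3, g4, g5, g6, g7, g8, g9⟩ := decomp (f {0}) (f {1}) (f {0, 1}) (f {2}) (f {0, 2}) (f {1, 2}) (f {3}) (f {0, 3}) (f {1, 3}) (f {2, 3})
    u0 u1 u2 u3 u4 u5 u6 u7 u8 u9 u10 u11 u12 u13 u14 u15 u16 u17 u18 u19 u20 u21 u22 u23 u24 u25 u26 u27 u28 u29 u30 u31 u32 u33 u34 u35
  have tot : 0 ≤ l0 * (c {3} + c {0, 3} + c {1, 3} + c {2, 3}) + l1 * (c {2} + c {0, 2} + c {1, 2} + c {2, 3}) + l2 * (c {1} + c {0, 1} + c {1, 2} + c {1, 3}) + l3 * (c {0} + c {0, 1} + c {0, 2} + c {0, 3}) + l4 * (c {2} + c {0, 2} + c {1, 2} + c {3} + c {0, 3} + c {1, 3} + c {2, 3}) + l5 * (c {1} + c {0, 1} + c {1, 2} + c {3} + c {0, 3} + c {1, 3} + c {2, 3}) + l6 * (c {1} + c {0, 1} + c {2} + c {0, 2} + c {1, 2} + c {1, 3} + c {2, 3}) + l7 * (c {0} + c {0, 1} + c {0, 2} + c {3} + c {0, 3} + c {1, 3} + c {2, 3}) + l8 * (c {0} + c {0, 1} + c {2} + c {0, 2} + c {1, 2} + c {0, 3} + c {2, 3}) + l9 * (c {0} + c {1} + c {0, 1} + c {0, 2}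 + c {1, 2} + c {0, 3} + c {1, 3}) + l10 * (c {1} + c {0, 1} + c {2} + c {0, 2} + c {1, 2} + c {3} + c {0, 3} + c {1, 3} + c {2, 3}) + l11 * (c {0} + c {0, 1} + c {2} + c {0, 2} + c {1, 2} + c {3} + c {0, 3} + c {1, 3} + c {2, 3}) + l12 * (c {0} + c {1} + c {0, 1} + c {0, 2} + c {1, 2} + c {3} + c {0, 3} + c {1, 3} + c {2, 3}) + l13 * (c {0} + c {1} + c {0, 1} + c {2} + c {0, 2} + c {1, 2} + c {0, 3} + c {1, 3} + c {2, 3}) + l14 * (c {0} + c {1} + c {0, 1} + c {2} + c {0, 2} + c {1, 2} + c {3} + c {0, 3} + c {1, 3} + c {2, 3}) + l15 * (c {0} + c {1} + 2 * c {0, 1} + c {2} + 2 * c {0, 2} + 2 * c {1, 2} + 2 * c {3} + 2 * c {0, 3} + 2 * c {1, 3} + 2 * c {2, 3}) + l16 * (c {0} + c {1} + 2 * c {0, 1} + 2 * c {2} + 2 * c {0, 2} + 2 * c {1, 2} + c {3} + 2 * c {0, 3} + 2 * c {1, 3} + 2 * c {2, 3}) + l17 * (c {0} + 2 * c {1} + 2 * c {0, 1} + c {2} + 2 * c {0, 2} + 2 * c {1, 2} + c {3} + 2 * c {0, 3} + 2 * c {1, 3} + 2 * c {2, 3})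 + l18 * (2 * c {0} + c {1} + 2 * c {0, 1} + c {2} + 2 * c {0, 2} + 2 * c {1, 2} + c {3} + 2 * c {0, 3} + 2 * c {1, 3} + 2 * c {2, 3}) := by
    have t := add_nonneg (add_nonneg (add_nonneg (add_nonneg (add_nonneg (add_nonneg (add_nonneg (add_nonneg (add_nonneg (add_nonneg (add_nonneg (add_nonneg (add_nonneg (add_nonneg (add_nonneg (add_nonneg (add_nonneg (add_nonneg (mul_nonneg p0 v0) (mul_nonneg p1 v1)) (mul_nonneg p2 v2)) (mul_nonneg p3 v3)) (mul_nonneg p4 v4)) (mul_nonneg p5 v5)) (mul_nonneg p6 v6)) (mul_nonneg p7 v7)) (mul_nonneg p8 v8)) (mul_nonneg p9 v9)) (mul_nonneg p10 v10)) (mul_nonneg p11 v11)) (mul_nonneg p12 v12)) (mul_nonneg p13 v13)) (mul_nonneg p14 v14)) (mul_nonneg p15 v15)) (mul_nonneg p16 v16)) (mul_nonneg p17 v17)) (mul_nonneg p18 v18)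
    exact t
  rw [e0]
  refine tot.trans (le_of_eq ?_)
  rw [g0, g1, g2, g3, g4, g5, g6, g7, g8, g9]
  ring

end Pool.Agent.MP7216ee
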