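import Pool.Agent.Lib.MP_7216ee_lc.Defs
import Pool.Agent.Lib.MP_7216ee_lc.Copy

/-!
Joint entropies of a family form a polymatroid; transfer from random variables on a
probability space to weights on a countable type; a five variable polymatroid from the copy
construction; the Zhang-Yeung inequality.
-/

namespace Pool.Agent.MP7216ee

open scoped ENNReal
open MeasureTheory

variable {I : Type*} {κ : Type*} [DecidableEq κ]

/-- joint variable of a family indexed by an arbitrary type -/
def jt (X : κ → I → ℕ) (S : Finset κ) : I → (S → ℕ) := fun i k => X k i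

omit [DecidableEq κ] in
theorem jt_eq_iff (X : κ → I → ℕ) (S : Finset κ) (i j : I) :
    jt X S i = jt X S j ↔ ∀ k ∈ S, X k i = X k j := by
  constructor
  · intro h k hk
    exact congrFun h ⟨k, hk⟩
  · intro h
    ext k
    exact h k k.2

variable {p : I → ℝ≥0∞} (hp : ∑' i, p i = 1)

include hp

omit [DecidableEq κ] in
theorem ent_empty (X : κ → I → ℕ) : ent p (jt X ∅) = 0 := by
  unfold ent
  rw [ENNReal.tsum_eq_zero]
  intro i
  have : mass p (jt X ∅) (jt X ∅ i) = 1 := by
    unfold mass
    rw [← hp]
    congr 1
    ext j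
    rw [Set.indicator_of_mem]
    simp only [Set.mem_preimage, Set.mem_singleton_iff]
    rw [jt_eq_iff]
    simp
  rw [this]
  simp [sur]

omit [DecidableEq κ] in
theorem ent_jt_mono (X : κ → I → ℕ) {S T : Finset κ} (h : S ⊆ T) :
    ent p (jt X S) ≤ ent p (jt X T) := by
  apply ent_mono hp
  intro i j hij
  rw [jt_eq_iff] at hij ⊢
  exact fun k hk => hij k (h hk)

theorem ent_jt_submod (X : κ → I → ℕ) (S T : Finset κ) :
    ent p (jt X (S ∩ T)) + ent p (jt X (S ∪ T)) ≤ ent p (jt X S) + ent p (jt X T) := by
  have h := ent_submod hp (jt X S) (jt X T) (jt X (S ∩ T))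
  have e1 : ent p (fun i => (jt X S i, jt X T i, jt X (S ∩ T) i)) = ent p (jt X (S ∪ T)) := by
    apply ent_congr hp
    intro i j
    simp only [Prod.mk.injEq, jt_eq_iff]
    constructor
    · intro h
      refine ⟨fun k hk => h k (Finset.mem_union_left _ hk),
        fun k hk => h k (Finset.mem_union_right _ hk),
        fun k hk => h k (Finset.mem_union_left _ (Finset.mem_inter.1 hk).1)⟩
    · rintro ⟨h1, h2, -⟩ k hk
      rcases Finset.mem_union.1 hk with hk | hk
      · exact h1 k hk
      · exact h2 k hk
  have e2 : ent p (fun i => (jt X S i, jt X (S ∩ T) i)) = ent p (jt X S) := by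
    apply ent_congr hp
    intro i j
    simp only [Prod.mk.injEq, jt_eq_iff]
    constructor
    · intro h
      exact ⟨h, fun k hk => h k (Finset.mem_inter.1 hk).1⟩
    · exact fun h => h.1
  have e3 : ent p (fun i => (jt X T i, jt X (S ∩ T) i)) = ent p (jt X T) := by
    apply ent_congr hp
    intro i j
    simp only [Prod.mk.injEq, jt_eq_iff]
    constructor
    · intro h
      exact ⟨h, fun k hk => h k (Finset.mem_inter.1 hk).2⟩
    · exact fun h => h.1
  rw [e1, e2, e3] at h
  rw [add_comm]
  exact h

omit [DecidableEq κ] in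
theorem ent_jt_singleton (X : κ → I → ℕ) (k : κ) : ent p (jt X {k}) = ent p (X k) := by
  apply ent_congr hp
  intro i j
  rw [jt_eq_iff]
  simp

theorem ent_jt_ne_top (X : κ → I → ℕ) (hX : ∀ k, ent p (X k) ≠ ⊤) (S : Finset κ) :
    ent p (jt X S) ≠ ⊤ := by
  induction S using Finset.induction_on with
  | empty => rw [ent_empty hp]; exact ENNReal.zero_ne_top
  | insert k S hk ih =>
    have h := ent_jt_submod hp X {k} S
    rw [ent_jt_singleton hp] at h
    have h2 : ent p (jt X ({k} ∪ S)) ≤ ent p (X k) + ent p (jt X S) :=
      le_trans le_add_self h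
    rw [Finset.insert_eq]
    exact ne_top_of_le_ne_top (ENNReal.add_ne_top.2 ⟨hX k, ih⟩) h2

/-- polymatroid over an arbitrary finite index type -/
structure IsPoly (f : Finset κ → ℝ) : Prop where
  empty : f ∅ = 0
  nonneg : ∀ S, 0 ≤ f S
  mono : ∀ S T, S ⊆ T → f S ≤ f T
  submod : ∀ S T, f (S ∩ T) + f (S ∪ T) ≤ f S + f T

theorem isPoly_ent (X : κ → I → ℕ) (hX : ∀ k, ent p (X k) ≠ ⊤) :
    IsPoly (fun S => (ent p (jt X S)).toReal) where
  empty := by simp only [ent_empty hp]; simp
  nonneg := fun S => ENNReal.toReal_nonneg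
  mono := fun S T h => ENNReal.toReal_mono (ent_jt_ne_top hp X hX T) (ent_jt_mono hp X h)
  submod := by
    intro S T
    have n1 := ent_jt_ne_top hp X hX
    rw [← ENNReal.toReal_add (n1 _) (n1 _), ← ENNReal.toReal_add (n1 _) (n1 _)]
    exact ENNReal.toReal_mono (ENNReal.add_ne_top.2 ⟨n1 _, n1 _⟩) (ent_jt_submod hp X S T)

/-- The copy lemma, in polymatroid form: over `κ` with a new index `none` for the copy of
the variable `c` over the variables in `S₀`. -/
theorem exists_copy [Fintype κ] (X : κ → I → ℕ) (hX : ∀ k, ent p (X k) ≠ ⊤) (c : κ)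
    (S₀ : Finset κ) :
    ∃ F : Finset (Option κ) → ℝ, IsPoly F ∧
      (∀ S : Finset κ, F (S.map Function.Embedding.some) = (ent p (jt X S)).toReal) ∧
      (∀ S ⊆ S₀, F (insert none (S.map Function.Embedding.some)) =
        (ent p (jt X (insert c S))).toReal) ∧
      F Finset.univ + (ent p (jt X S₀)).toReal =
        (ent p (jt X Finset.univ)).toReal + (ent p (jt X (insert c S₀))).toReal := by
  classical
  set W : I → (S₀ → ℕ) := jt X S₀ with hW
  set q : I × ℕ → ℝ≥0∞ := cw p (X c) W with hq
  have hq1 : ∑' x, q x = 1 := tsum_cw hp (X c) W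
  set Y : Option κ → I × ℕ → ℕ := fun o x => o.elim x.2 (fun k => X k x.1) with hY
  -- masses on old variables
  have hold : ∀ S : Finset κ, ent q (jt Y (S.map Function.Embedding.some)) = ent p (jt X S) := by
    intro S
    rw [← ent_cw_fst hp (X c) W (jt X S)]
    apply ent_congr hq1
    intro x y
    rw [jt_eq_iff, jt_eq_iff]
    constructor
    · intro h k hk
      simp only [Finset.mem_map, Function.Embedding.some_apply] at hk
      obtain ⟨k', hk', rfl⟩ := hk
      exact h k' hk'
    · intro h k hk
      exact h (some k) (by simpa using hk)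
  have hnew : ∀ S ⊆ S₀, ent q (jt Y (insert none (S.map Function.Embedding.some))) =
      ent p (jt X (insert c S)) := by
    intro S hS
    set g : ℕ × (S₀ → ℕ) → ℕ × (S → ℕ) := fun z => (z.1, fun k => z.2 ⟨k, hS k.2⟩) with hg
    have h1 := ent_cw_comp hp (X c) W g
    have h2 : ent q (jt Y (insert none (S.map Function.Embedding.some))) =
        ent q (fun x => g (x.2, W x.1)) := by
      apply ent_congr hq1
      intro x y
      rw [jt_eq_iff]
      simp only [hg, hW, jt, hY, Prod.mk.injEq]
      constructor
      · rintro ⟨h3, h4⟩ k hk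
        simp only [Finset.mem_insert, Finset.mem_map, Function.Embedding.some_apply] at hk
        rcases hk with rfl | ⟨k', hk', rfl⟩
        · exact h3
        · exact congrFun h4 ⟨k', hk'⟩
      · intro h
        refine ⟨h none (by simp), ?_⟩
        ext k
        exact h (some k) (by simp)
    have h3 : ent p (jt X (insert c S)) = ent p (fun i => g (X c i, W i)) := by
      apply ent_congr hp
      intro i j
      rw [jt_eq_iff]
      simp only [hg, hW, jt, Prod.mk.injEq]
      constructor
      · rintro ⟨h3, h4⟩ k hk
        rcases Finset.mem_insert.1 hk with rfl | hk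
        · exact h3
        · exact congrFun h4 ⟨k, hk⟩
      · intro h
        refine ⟨h c (by simp), ?_⟩
        ext k
        exact h k (by simp)
    rw [h2, h3]
    exact h1
  have hYtop : ∀ o, ent q (Y o) ≠ ⊤ := by
    intro o
    cases o with
    | none =>
      have := hnew ∅ (Finset.empty_subset _)
      rw [Finset.map_empty] at this
      have e : (insert none ∅ : Finset (Option κ)) = {none} := rfl
      rw [e, ent_jt_singleton hq1] at this
      rw [this]
      exact ent_jt_ne_top hp X hX _
    | some k =>
      have := hold {k}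
      rw [Finset.map_singleton, Function.Embedding.some_apply, ent_jt_singleton hq1] at this
      rw [this]
      exact ent_jt_ne_top hp X hX _
  refine ⟨fun S => (ent q (jt Y S)).toReal, isPoly_ent hq1 Y hYtop, ?_, ?_, ?_⟩
  · intro S
    simp only [hold]
  · intro S hS
    simp only [hnew S hS]
  · have hm := ent_cw_markov hp (X c) W (jt X Finset.univ)
      (fun v => fun k => v ⟨k, Finset.mem_univ _⟩) (fun i => rfl)
    have e1 : ent q (jt Y Finset.univ) =
        ent q (fun x => (x.2, jt X Finset.univ x.1)) := by
      apply ent_congr hq1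
      intro x y
      rw [jt_eq_iff]
      simp only [Prod.mk.injEq, jt_eq_iff]
      constructor
      · rintro ⟨h3, h4⟩ k -
        cases k with
        | none => exact h3
        | some k => exact h4 k (Finset.mem_univ _)
      · intro h
        exact ⟨h none (Finset.mem_univ _), fun k _ => h (some k) (Finset.mem_univ _)⟩
    have e2 : ent p (jt X (insert c S₀)) = ent p (fun i => (X c i, W i)) := by
      apply ent_congr hp
      intro i j
      rw [jt_eq_iff]
      simp only [hW, Prod.mk.injEq, jt_eq_iff]
      constructor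
      · rintro ⟨h3, h4⟩ k hk
        rcases Finset.mem_insert.1 hk with rfl | hk
        · exact h3
        · exact h4 k hk
      · intro h
        exact ⟨h c (by simp), fun k hk => h k (Finset.mem_insert_of_mem hk)⟩
    rw [← e1, ← e2] at hm
    have t1 := ent_jt_ne_top hp X hX
    have t2 := ent_jt_ne_top hq1 Y hYtop
    have := congrArg ENNReal.toReal hm
    rw [ENNReal.toReal_add (t2 _) (t1 _), ENNReal.toReal_add (t1 _) (t1 _)] at this
    exact this

end Pool.Agent.MP7216ee
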