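import Pool.Agent.Lib.MP_7216ee_lc.Poly

/-!
The Zhang-Yeung inequality, the transfer between random variables on a probability space and
weights on a countable type, and the resulting inequality on five variables that uses only
singles and pairs.
-/

namespace Pool.Agent.MP7216ee

open scoped ENNReal
open MeasureTheory

/-- Zhang-Yeung inequality for four variables, from the copy construction. -/
theorem zhangYeung {I : Type*} {p : I → ℝ≥0∞} (hp : ∑' i, p i = 1) (X : Fin 4 → I → ℕ)
    (hX : ∀ k, ent p (X k) ≠ ⊤) (h : Finset (Fin 4) → ℝ)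
    (hh : ∀ S, h S = (ent p (jt X S)).toReal) :
    0 ≤ -2 * h {0} - 2 * h {1} - h {2} + 3 * h {0, 1} + 3 * h {0, 2} + 3 * h {1, 2}
      + h {0, 3} + h {1, 3} - h {2, 3} - 4 * h {0, 1, 2} - h {0, 1, 3} := by
  obtain ⟨F, hF, hold, hnew, hmk⟩ := exists_copy hp X hX 2 {0, 1}
  simp_rw [← hh] at hold hnew hmk
  have sub : ∀ S T U V, S ∩ T = U → S ∪ T = V → F U + F V ≤ F S + F T := by
    rintro S T U V rfl rfl
    exact hF.submod S T
  have o : ∀ (S : Finset (Fin 4)) (T : Finset (Option (Fin 4))),
      S.map Function.Embedding.some = T → F T = h S := by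
    rintro S T rfl
    exact hold S
  have nw : ∀ (S : Finset (Fin 4)) (T : Finset (Option (Fin 4))) (U : Finset (Fin 4)),
      S ⊆ {0, 1} → insert none (S.map Function.Embedding.some) = T → insert 2 S = U →
      F T = h U := by
    rintro S T U h1 rfl rfl
    exact hnew S h1
  have b1 := sub {none, some 0} {some 0, some 2} {some 0} {none, some 0, some 2}
    (by decide) (by decide)
  have b2 := sub {none, some 1} {some 1, some 2} {some 1} {none, some 1, some 2}
    (by decide) (by decide)
  have b3 := sub {none, some 0} {some 0, some 3} {some 0} {none, some 0, some 3}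
    (by decide) (by decide)
  have b4 := sub {none, some 1} {some 1, some 3} {some 1} {none, some 1, some 3}
    (by decide) (by decide)
  have c1 := sub {none, some 0, some 2} {none, some 1, some 2} {none, some 2}
    {none, some 0, some 1, some 2} (by decide) (by decide)
  have c2 := sub {none, some 0, some 3} {none, some 1, some 3} {none, some 3}
    {none, some 0, some 1, some 3} (by decide) (by decide)
  have d1 := sub {none, some 2} {none, some 3} {none} {none, some 2, some 3}
    (by decide) (by decide)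
  have e1 := sub {none, some 2, some 3} {some 0, some 1, some 2, some 3} {some 2, some 3}
    Finset.univ (by decide) (by decide)
  have f1 := sub {none, some 0, some 1, some 2} {some 0, some 1, some 2, some 3}
    {some 0, some 1, some 2} Finset.univ (by decide) (by decide)
  have f2 := sub {none, some 0, some 1, some 3} {some 0, some 1, some 2, some 3}
    {some 0, some 1, some 3} Finset.univ (by decide) (by decide)
  have o0 := o {0} {some 0} (by decide)
  have o1 := o {1} {some 1} (by decide)
  have o02 := o {0, 2} {some 0, some 2} (by decide)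
  have o12 := o {1, 2} {some 1, some 2} (by decide)
  have o03 := o {0, 3} {some 0, some 3} (by decide)
  have o13 := o {1, 3} {some 1, some 3} (by decide)
  have o23 := o {2, 3} {some 2, some 3} (by decide)
  have o012 := o {0, 1, 2} {some 0, some 1, some 2} (by decide)
  have o013 := o {0, 1, 3} {some 0, some 1, some 3} (by decide)
  have o0123 := o Finset.univ {some 0, some 1, some 2, some 3} (by decide)
  have n0 := nw ∅ {none} {2} (by decide) (by decide) (by decide)
  have n1 := nw {0} {none, some 0} {0, 2} (by decide) (by decide) (by decide)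
  have n2 := nw {1} {none, some 1} {1, 2} (by decide) (by decide) (by decide)
  have e3 : (insert 2 {0, 1} : Finset (Fin 4)) = {0, 1, 2} := by decide
  rw [e3] at hmk
  linarith

/-- if two maps have the same law, they have the same entropy -/
theorem entropy_eq_ent {Ω I β : Type*} [MeasurableSpace Ω] (μ : Measure Ω)
    [IsProbabilityMeasure μ] (Z : Ω → β) (p : I → ℝ≥0∞) (Y : I → β)
    (h : ∀ b, μ (Z ⁻¹' {b}) = mass p Y b) :
    entropy μ Z = ent p Y / ENNReal.ofReal (Real.log 2) := by
  rw [ent_eq_tsum, entropy, div_eq_mul_inv, ← ENNReal.tsum_mul_right]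
  congr 1
  ext b
  have hl : 0 < Real.log 2 := Real.log_pos (by norm_num)
  rw [← h b, ENNReal.ofReal_div_of_pos hl, div_eq_mul_inv]
  congr 1
  unfold sur Real.negMulLog Measure.real
  rw [neg_mul, ← mul_neg, ENNReal.ofReal_mul ENNReal.toReal_nonneg,
    ENNReal.ofReal_toReal (measure_ne_top μ _)]

/-- law of the vector `(A_1, …, A_n)` as weights on `Fin n → ℕ` -/
noncomputable def law {n : ℕ} {Ω : Type*} [MeasurableSpace Ω] (μ : Measure Ω)
    (A : Fin n → Ω → ℕ) : (Fin n → ℕ) → ℝ≥0∞ :=
  fun i => μ ((fun ω k => A k ω) ⁻¹' {i})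

theorem mass_law {n : ℕ} {Ω β : Type*} [MeasurableSpace Ω] (μ : Measure Ω)
    (A : Fin n → Ω → ℕ) (hA : ∀ i, Measurable (A i)) (g : (Fin n → ℕ) → β) (b : β) :
    μ ((fun ω => g (fun k => A k ω)) ⁻¹' {b}) = mass (law μ A) g b := by
  have hm : Measurable (fun ω k => A k ω : Ω → (Fin n → ℕ)) := measurable_pi_lambda _ hA
  have h1 : (fun ω => g (fun k => A k ω)) ⁻¹' {b} =
      (fun ω k => A k ω : Ω → (Fin n → ℕ)) ⁻¹' (g ⁻¹' {b}) := rfl
  have hms : MeasurableSet (g ⁻¹' {b}) := Set.Countable.measurableSet (Set.to_countable _)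
  rw [h1, ← Measure.map_apply hm hms,
    ← Measure.tsum_indicator_apply_singleton (Measure.map (fun ω k => A k ω) μ) _ hms]
  unfold mass law
  congr 1
  ext i
  congr 1
  ext j
  rw [Measure.map_apply hm (Set.Countable.measurableSet (Set.to_countable _))]

theorem tsum_law {n : ℕ} {Ω : Type*} [MeasurableSpace Ω] (μ : Measure Ω)
    [IsProbabilityMeasure μ] (A : Fin n → Ω → ℕ) (hA : ∀ i, Measurable (A i)) :
    ∑' i, law μ A i = 1 := by
  have h := mass_law μ A hA (fun _ => ()) ()
  have h2 : (fun ω => (fun _ : Fin n → ℕ => ()) (fun k => A k ω)) ⁻¹' {()} =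
      (Set.univ : Set Ω) := by ext; simp
  rw [h2, measure_univ] at h
  rw [h]
  unfold mass
  congr 1
  ext i
  rw [Set.indicator_of_mem]
  simp

/-- normal form of entropic functions: weights on `Fin n → ℕ` with the coordinate maps -/
theorem IsEntropic.exists_weights {n : ℕ} {f : Finset (Fin n) → ℝ} (hf : IsEntropic f) :
    ∃ p : (Fin n → ℕ) → ℝ≥0∞, ∑' i, p i = 1 ∧
      (∀ k, ent p (fun i => i k) ≠ ⊤) ∧
      ∀ S, f S = (ent p (jt (fun k i => i k) S)).toReal / Real.log 2 := by
  obtain ⟨Ω, _, μ, A, hμ, hA, hfin, hf⟩ := hf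
  have hl : 0 < Real.log 2 := Real.log_pos (by norm_num)
  refine ⟨law μ A, tsum_law μ A hA, ?_, ?_⟩
  · intro k
    have h := entropy_eq_ent μ (A k) (law μ A) (fun i => i k)
      (fun b => mass_law μ A hA (fun i => i k) b)
    have h2 := hfin k
    rw [h] at h2
    intro h3
    apply h2
    rw [h3]
    exact ENNReal.top_div_of_ne_top ENNReal.ofReal_ne_top
  · intro S
    have h := entropy_eq_ent μ (joint A S) (law μ A)
      (jt (fun (k : Fin n) (i : Fin n → ℕ) => i k) S)
      (fun b => mass_law μ A hA (jt (fun (k : Fin n) (i : Fin n → ℕ) => i k) S) b)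
    rw [hf S, h, ENNReal.toReal_div, ENNReal.toReal_ofReal hl.le]

/-- The five-variable inequality in singles and pairs only. -/
theorem fiveIneq (f : Finset (Fin 5) → ℝ) (hf : IsEntropic f) :
    0 ≤ -2 * f {0} - 2 * f {1} - f {2} - 5 * f {4} - 2 * f {0, 1} + 3 * f {0, 2}
      + 3 * f {1, 2} + f {0, 3} + f {1, 3} - f {2, 3} - 4 * f {2, 4} - f {3, 4}
      + 5 * f {0, 4} + 5 * f {1, 4} := by
  obtain ⟨p, hp, hfin, hfS⟩ := hf.exists_weights
  have hl : 0 < Real.log 2 := Real.log_pos (by norm_num)
  set X : Fin 5 → (Fin 5 → ℕ) → ℕ := fun k i => i k with hX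
  set h : Finset (Fin 5) → ℝ := fun S => (ent p (jt X S)).toReal with hh
  have hP : IsPoly h := isPoly_ent hp X hfin
  have zy := zhangYeung hp (fun k => X k.castSucc) (fun k => hfin _)
    (fun S => h (S.map Fin.castSuccEmb)) (by
      intro S
      simp only [hh]
      congr 1
      apply ent_congr hp
      intro i j
      rw [jt_eq_iff, jt_eq_iff]
      simp)
  simp only [Finset.map_singleton, Finset.map_insert] at zy
  have r0 : Fin.castSuccEmb (0 : Fin 4) = (0 : Fin 5) := rfl
  have r1 : Fin.castSuccEmb (1 : Fin 4) = (1 : Fin 5) := rfl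
  have r2 : Fin.castSuccEmb (2 : Fin 4) = (2 : Fin 5) := rfl
  have r3 : Fin.castSuccEmb (3 : Fin 4) = (3 : Fin 5) := rfl
  rw [r0, r1, r2, r3] at zy
  have sub : ∀ S T U V, S ∩ T = U → S ∪ T = V → h U + h V ≤ h S + h T := by
    rintro S T U V rfl rfl
    exact hP.submod S T
  have s1 := sub {0, 4} {1, 4} {4} {0, 1, 4} (by decide) (by decide)
  have s2 := sub {0, 1, 2} {0, 1, 4} {0, 1} {0, 1, 2, 4} (by decide) (by decide)
  have s3 := sub {0, 1, 3} {0, 1, 4} {0, 1} {0, 1, 3, 4} (by decide) (by decide)
  have m1 := hP.mono {2, 4} {0, 1, 2, 4} (by decide)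
  have m2 := hP.mono {3, 4} {0, 1, 3, 4} (by decide)
  have key : 0 ≤ -2 * h {0} - 2 * h {1} - h {2} - 5 * h {4} - 2 * h {0, 1} + 3 * h {0, 2}
      + 3 * h {1, 2} + h {0, 3} + h {1, 3} - h {2, 3} - 4 * h {2, 4} - h {3, 4}
      + 5 * h {0, 4} + 5 * h {1, 4} := by linarith
  have hfS' : ∀ S, f S = h S / Real.log 2 := hfS
  simp_rw [hfS']
  have := div_nonneg key hl.le
  refine this.trans (le_of_eq ?_)
  ring

end Pool.Agent.MP7216ee
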